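import Mathlib

/-!
# Products of blocks and subword closed languages
-/

namespace Pool.Agent.H12Letter

/-- `e` is a list of blocks `(s, B)`; a word matches `e` if it is a concatenation of words over
the alphabets `B`, of length at most one where `s = 0` -/
def Mat : List (ℕ × List ℕ) → List ℕ → Prop
  | [], v => v = []
  | b :: e, v => ∃ v1 v2, v = v1 ++ v2 ∧ (∀ x ∈ v1, x ∈ b.2) ∧ (b.1 = 0 → v1.length ≤ 1) ∧
      Mat e v2

/-- blocks for at most one position have at most one letter -/
def okE (e : List (ℕ × List ℕ)) : Prop := ∀ b ∈ e, b.1 = 0 → b.2.length ≤ 1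

/-- letter `x` is allowed in block number `j` -/
def al (e : List (ℕ × List ℕ)) (j x : ℕ) : Prop := x ∈ (e.getD j (0, [])).2

/-- block number `j` may be used several times -/
def st (e : List (ℕ × List ℕ)) (j : ℕ) : Prop := (e.getD j (0, [])).1 ≠ 0

theorem al.lt {e : List (ℕ × List ℕ)} {j x : ℕ} (h : al e j x) : j < e.length := by
  by_contra hj
  rw [al, List.getD_eq_default _ _ (by omega)] at h
  simp at h

theorem Mat.sublist {e : List (ℕ × List ℕ)} {v u : List ℕ} (h : Mat e v) (hu : u.Sublist v) :
    Mat e u := by
  induction e generalizing v u with
  | nil =>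
    rw [Mat] at h ⊢
    subst h
    exact List.sublist_nil.1 hu
  | cons b e ih =>
    obtain ⟨v1, v2, rfl, h1, h2, h3⟩ := h
    obtain ⟨u1, u2, rfl, hu1, hu2⟩ := List.sublist_append_iff.1 hu
    exact ⟨u1, u2, rfl, fun x hx => h1 x (hu1.subset hx),
      fun hb => (hu1.length_le).trans (h2 hb), ih h3 hu2⟩

theorem mat_star_cons {B : List ℕ} {x : ℕ} (hx : x ∈ B) {e : List (ℕ × List ℕ)} {v : List ℕ} :
    Mat ((1, B) :: e) (x :: v) ↔ Mat ((1, B) :: e) v := by
  constructor
  · intro h
    exact h.sublist (List.sublist_cons_self x v)
  · rintro ⟨v1, v2, rfl, h1, -, h3⟩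
    refine ⟨x :: v1, v2, rfl, ?_, fun h => absurd h one_ne_zero, h3⟩
    intro y hy
    rcases List.mem_cons.1 hy with rfl | hy
    · exact hx
    · exact h1 y hy

/-- the residual of a list of forbidden words -/
def resid (A : List (List ℕ)) (x : ℕ) : List (List ℕ) :=
  A.map fun u => if u.head? = some x then u.tail else u

theorem resid_iff (A : List (List ℕ)) (x : ℕ) (v : List ℕ) :
    (∀ u ∈ A, ¬ u.Sublist (x :: v)) ↔
      (∀ u ∈ resid A x, ¬ u.Sublist v) ∧ [] ∉ A := by
  constructor
  · intro h
    refine ⟨?_, fun hn => h _ hn (List.nil_sublist _)⟩
    intro u' hu'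
    obtain ⟨u, hu, rfl⟩ := List.mem_map.1 hu'
    by_cases hx : u.head? = some x
    · rw [if_pos hx]
      intro hs
      apply h u hu
      cases u with
      | nil => simp at hx
      | cons y u =>
        simp only [List.head?_cons, Option.some.injEq] at hx
        subst hx
        exact List.cons_sublist_cons.2 hs
    · rw [if_neg hx]
      intro hs
      exact h u hu (hs.trans (List.sublist_cons_self x v))
  · rintro ⟨h, hn⟩ u hu hs
    have := h _ (List.mem_map_of_mem hu)
    apply this
    cases u with
    | nil => exact absurd hu hn
    | cons y u =>
      by_cases hx : y = x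
      · subst hx
        simp only [List.head?_cons, if_true, List.tail_cons]
        exact List.cons_sublist_cons.1 hs
      · have : ¬ (y :: u).head? = some x := by simpa using hx
        rw [if_neg this]
        rcases List.sublist_cons_iff.1 hs with h1 | ⟨r, hr, -⟩
        · exact h1
        · exact absurd (List.cons.inj hr).1 hx

theorem resid_sum {A : List (List ℕ)} {x : ℕ} (h : ∃ u ∈ A, u.head? = some x) :
    ((resid A x).map List.length).sum < (A.map List.length).sum := by
  induction A with
  | nil => simp at h
  | cons a A ih =>
    have hle : ((resid A x).map List.length).sum ≤ (A.map List.length).sum := by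
      clear ih h
      induction A with
      | nil => simp [resid]
      | cons b A ih =>
        simp only [resid, List.map_cons, List.sum_cons] at ih ⊢
        have : (if b.head? = some x then b.tail else b).length ≤ b.length := by
          split_ifs
          · simp
          · exact le_rfl
        omega
    simp only [resid, List.map_cons, List.sum_cons] at hle ⊢
    by_cases ha : a.head? = some x
    · rw [if_pos ha]
      have : a.tail.length < a.length := by
        cases a with
        | nil => simp at ha
        | cons y a => simp
      omega
    · rw [if_neg ha]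
      obtain ⟨u, hu, hux⟩ := h
      rcases List.mem_cons.1 hu with rfl | hu
      · exact absurd hux ha
      · have := ih ⟨u, hu, hux⟩
        simp only [resid] at this
        omega

/-- A language given by finitely many forbidden subwords is a finite union of products -/
theorem decomp (k : ℕ) (A : List (List ℕ)) :
    ∃ E : List (List (ℕ × List ℕ)), (∀ e ∈ E, okE e) ∧
      ∀ v : List ℕ, (∀ x ∈ v, x < k) → ((∀ u ∈ A, ¬ u.Sublist v) ↔ ∃ e ∈ E, Mat e v) := by
  classical
  induction hn : (A.map List.length).sum using Nat.strong_induction_on generalizing A with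
  | _ n ih =>
    by_cases hnil : [] ∈ A
    · refine ⟨[], by simp, fun v _ => ?_⟩
      constructor
      · intro h
        exact absurd (List.nil_sublist v) (h _ hnil)
      · rintro ⟨e, he, -⟩
        simp at he
    · have key : ∀ x : ℕ, ∃ E : List (List (ℕ × List ℕ)), (∃ u ∈ A, u.head? = some x) →
          (∀ e ∈ E, okE e) ∧ ∀ v : List ℕ, (∀ x ∈ v, x < k) →
            ((∀ u ∈ resid A x, ¬ u.Sublist v) ↔ ∃ e ∈ E, Mat e v) := by
        intro x
        by_cases hx : ∃ u ∈ A, u.head? = some x
        · obtain ⟨E, hE⟩ := ih _ (hn ▸ resid_sum hx) (resid A x) rfl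
          exact ⟨E, fun _ => hE⟩
        · exact ⟨[], fun h => absurd h hx⟩
      choose E hE using key
      set B : List ℕ := (List.range k).filter fun x => ¬ ∃ u ∈ A, u.head? = some x with hB
      set Hd : List ℕ := (List.range k).filter fun x => ∃ u ∈ A, u.head? = some x with hHd
      have hmemB : ∀ x, x ∈ B ↔ x < k ∧ ¬ ∃ u ∈ A, u.head? = some x := by
        intro x
        rw [hB, List.mem_filter, List.mem_range, decide_eq_true_iff]
      have hmemH : ∀ x, x ∈ Hd ↔ x < k ∧ ∃ u ∈ A, u.head? = some x := by
        intro x
        rw [hHd, List.mem_filter, List.mem_range, decide_eq_true_iff]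
      have hmemE : ∀ e, e ∈ ([(1, B)] :: Hd.flatMap fun x => (E x).map fun e =>
          (1, B) :: (0, [x]) :: e) ↔ e = [(1, B)] ∨ ∃ x ∈ Hd, ∃ e' ∈ E x,
            e = (1, B) :: (0, [x]) :: e' := by
        intro e
        rw [List.mem_cons, List.mem_flatMap]
        constructor
        · rintro (h | ⟨x, hx, h⟩)
          · exact Or.inl h
          · obtain ⟨e', he', rfl⟩ := List.mem_map.1 h
            exact Or.inr ⟨x, hx, e', he', rfl⟩
        · rintro (h | ⟨x, hx, e', he', rfl⟩)
          · exact Or.inl h
          · exact Or.inr ⟨x, hx, List.mem_map.2 ⟨e', he', rfl⟩⟩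
      refine ⟨[(1, B)] :: Hd.flatMap fun x => (E x).map fun e => (1, B) :: (0, [x]) :: e,
        ?_, ?_⟩
      · intro e he
        rcases (hmemE e).1 he with rfl | ⟨x, hx, e', he', rfl⟩
        · intro b hb h0
          rw [List.mem_singleton] at hb
          subst hb
          simp at h0
        · intro b hb h0
          rcases List.mem_cons.1 hb with rfl | hb
          · simp at h0
          rcases List.mem_cons.1 hb with rfl | hb
          · simp
          · exact (hE x ((hmemH x).1 hx).2).1 e' he' b hb h0
      · intro v
        induction v with
        | nil =>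
          intro _
          constructor
          · intro _
            exact ⟨[(1, B)], (hmemE _).2 (Or.inl rfl), [], [], rfl, by simp, by simp, rfl⟩
          · intro _ u hu hs
            rw [List.sublist_nil] at hs
            exact hnil (hs ▸ hu)
        | cons x v ihv =>
          intro hv
          have hxk : x < k := hv x (by simp)
          have hv' : ∀ y ∈ v, y < k := fun y hy => hv y (by simp [hy])
          by_cases hx : ∃ u ∈ A, u.head? = some x
          · -- x is a head
            constructor
            · intro h
              obtain ⟨e, he, hm⟩ := ((hE x hx).2 v hv').1 ((resid_iff A x v).1 h).1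
              exact ⟨(1, B) :: (0, [x]) :: e,
                (hmemE _).2 (Or.inr ⟨x, (hmemH x).2 ⟨hxk, hx⟩, e, he, rfl⟩),
                [], x :: v, rfl, by simp, by simp, [x], v, rfl, by simp, by simp, hm⟩
            · rintro ⟨e, he, hm⟩
              rcases (hmemE e).1 he with rfl | ⟨y, hy, e', he', rfl⟩
              · obtain ⟨v1, v2, h1, h2, -, h4⟩ := hm
                rw [Mat] at h4
                subst h4
                rw [List.append_nil] at h1
                have : x ∈ B := h2 x (by rw [← h1]; simp)
                exact absurd hx ((hmemB x).1 this).2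
              · have hyH := ((hmemH y).1 hy).2
                obtain ⟨v1, v2, h1, h2, -, v3, v4, rfl, h3, h3', h4⟩ := hm
                have hv1 : v1 = [] := by
                  cases v1 with
                  | nil => rfl
                  | cons z v1 =>
                    have hz : x = z := (List.cons.inj h1).1
                    subst hz
                    exact absurd hx ((hmemB x).1 (h2 x (by simp))).2
                subst hv1
                rw [List.nil_append] at h1
                cases v3 with
                | nil =>
                  rw [List.nil_append] at h1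
                  rw [← h1] at h4
                  have h5 := ((hE y hyH).2 (x :: v) hv).2 ⟨e', he', h4⟩
                  intro u hu hs
                  apply h5 _ (List.mem_map_of_mem hu)
                  refine List.Sublist.trans ?_ hs
                  split_ifs
                  · exact List.tail_sublist u
                  · exact List.Sublist.refl u
                | cons z v3 =>
                  have hz : x = z := (List.cons.inj h1).1
                  have hzy : z ∈ [y] := h3 z (by simp)
                  rw [List.mem_singleton] at hzy
                  have hv3 : v3 = [] := by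
                    have := h3' rfl
                    simp only [List.length_cons] at this
                    exact List.length_eq_zero_iff.1 (by omega)
                  subst hv3
                  have hxy : x = y := hz.trans hzy
                  subst hxy
                  have h6 : v = v4 := by simpa using (List.cons.inj h1).2
                  rw [← h6] at h4
                  exact (resid_iff A x v).2 ⟨((hE x hx).2 v hv').2 ⟨e', he', h4⟩, hnil⟩
          · have hxB : x ∈ B := (hmemB x).2 ⟨hxk, hx⟩
            have hL : (∀ u ∈ A, ¬ u.Sublist (x :: v)) ↔ (∀ u ∈ A, ¬ u.Sublist v) := by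
              constructor
              · intro h u hu hs
                exact h u hu (hs.trans (List.sublist_cons_self x v))
              · intro h u hu hs
                rcases List.sublist_cons_iff.1 hs with h1 | ⟨r, hr, -⟩
                · exact h u hu h1
                · apply hx
                  exact ⟨u, hu, by rw [hr]; rfl⟩
            rw [hL, ihv hv']
            constructor
            · rintro ⟨e, he, hm⟩
              refine ⟨e, he, ?_⟩
              rcases (hmemE e).1 he with rfl | ⟨y, hy, e', he', rfl⟩
              · exact (mat_star_cons hxB).2 hm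
              · exact (mat_star_cons hxB).2 hm
            · rintro ⟨e, he, hm⟩
              exact ⟨e, he, hm.sublist (List.sublist_cons_self x v)⟩

/-- typed version of a match -/
def Typed (e : List (ℕ × List ℕ)) (t : List (ℕ × ℕ)) : Prop :=
  (∀ p ∈ t, al e p.2 p.1) ∧ t.Pairwise fun p q => p.2 ≤ q.2 ∧ (p.2 = q.2 → st e p.2)

theorem Mat.typed {e : List (ℕ × List ℕ)} {v : List ℕ} (h : Mat e v) :
    ∃ t : List (ℕ × ℕ), t.map Prod.fst = v ∧ Typed e t := by
  induction e generalizing v with
  | nil =>
    rw [Mat] at h
    subst h
    exact ⟨[], rfl, by simp, List.Pairwise.nil⟩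
  | cons b e ih =>
    obtain ⟨v1, v2, rfl, h1, h2, h3⟩ := h
    obtain ⟨t, ht, hal, hp⟩ := ih h3
    refine ⟨(v1.map fun x => (x, 0)) ++ t.map fun p => (p.1, p.2 + 1), ?_, ?_, ?_⟩
    · rw [List.map_append, List.map_map, List.map_map, ← ht]
      have h4 : (Prod.fst ∘ fun x : ℕ => (x, 0)) = id := rfl
      have h5 : (Prod.fst ∘ fun p : ℕ × ℕ => (p.1, p.2 + 1)) = Prod.fst := rfl
      rw [h4, h5, List.map_id]
    · intro p hp'
      rcases List.mem_append.1 hp' with hp' | hp'
      · obtain ⟨x, hx, rfl⟩ := List.mem_map.1 hp'
        simpa [al] using h1 x hx
      · obtain ⟨q, hq, rfl⟩ := List.mem_map.1 hp'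
        simpa [al] using hal q hq
    · rw [List.pairwise_append]
      refine ⟨?_, ?_, ?_⟩
      · rw [List.pairwise_map]
        by_cases hb : b.1 = 0
        · have := h2 hb
          match v1, this with
          | [], _ => exact List.Pairwise.nil
          | [x], _ => exact List.pairwise_singleton _ _
        · apply List.pairwise_of_forall
          intro x y
          exact ⟨le_rfl, fun _ => by simpa [st] using hb⟩
      · rw [List.pairwise_map]
        exact hp.imp fun {p q} hpq => ⟨Nat.succ_le_succ hpq.1,
          fun h => by simpa [st] using hpq.2 (by simpa using h)⟩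
      · intro p hp' q hq'
        obtain ⟨x, hx, rfl⟩ := List.mem_map.1 hp'
        obtain ⟨r, hr, rfl⟩ := List.mem_map.1 hq'
        exact ⟨Nat.zero_le _, fun h => by simp at h⟩

theorem Typed.mat {e : List (ℕ × List ℕ)} {t : List (ℕ × ℕ)} (h : Typed e t) :
    Mat e (t.map Prod.fst) := by
  induction e generalizing t with
  | nil =>
    rw [Mat]
    cases t with
    | nil => rfl
    | cons p t =>
      have := h.1 p (by simp)
      simp [al] at this
  | cons b e ih =>
    obtain ⟨hal, hp⟩ := h
    set t0 := t.takeWhile (fun p => p.2 = 0) with ht0
    set t1 := t.dropWhile (fun p => p.2 = 0) with ht1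
    have ht : t0 ++ t1 = t := List.takeWhile_append_dropWhile
    have h0 : ∀ p ∈ t0, p.2 = 0 := by
      intro p hp'
      have := List.mem_takeWhile_imp hp'
      simpa using this
    rw [← ht] at hp hal ⊢
    rw [List.pairwise_append] at hp
    have h1 : ∀ p ∈ t1, 0 < p.2 := by
      by_cases hne : t1 = []
      · intro p hp'
        rw [hne] at hp'
        simp at hp'
      · obtain ⟨q, r, hqr⟩ := List.exists_cons_of_ne_nil hne
        have hq : 0 < q.2 := by
          have hne' : t.dropWhile (fun p => decide (p.2 = 0)) ≠ [] := hne
          have hh := List.head_dropWhile_not (fun p : ℕ × ℕ => decide (p.2 = 0)) hne'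
          have hhead : (t.dropWhile (fun p => decide (p.2 = 0))).head hne' = q := by
            have : t.dropWhile (fun p => decide (p.2 = 0)) = q :: r := hqr
            simp only [this, List.head_cons]
          rw [hhead] at hh
          have : ¬ q.2 = 0 := by simpa using hh
          omega
        intro p hp'
        rw [hqr] at hp'
        rcases List.mem_cons.1 hp' with rfl | hp'
        · exact hq
        · have h2 := hp.2.1
          rw [hqr, List.pairwise_cons] at h2
          have := (h2.1 p hp').1
          omega
    refine ⟨t0.map Prod.fst, t1.map Prod.fst, by rw [List.map_append], ?_, ?_, ?_⟩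
    · intro x hx
      obtain ⟨p, hp', rfl⟩ := List.mem_map.1 hx
      have := hal p (List.mem_append_left _ hp')
      rw [al, h0 p hp'] at this
      simpa using this
    · intro hb
      rw [List.length_map]
      by_contra hlen
      have hp0 := hp.1
      match t0, hlen, h0, hp0 with
      | p :: q :: r, _, h0, hp0 =>
        rw [List.pairwise_cons] at hp0
        have h3 := (hp0.1 q (by simp)).2 (by rw [h0 p (by simp), h0 q (by simp)])
        rw [st, h0 p (by simp)] at h3
        exact h3 (by simpa using hb)
      | [p], hlen, _, _ => simp at hlen
      | [], hlen, _, _ => simp at hlen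
    · have := ih (t := t1.map fun p => (p.1, p.2 - 1)) ⟨?_, ?_⟩
      · rw [List.map_map] at this
        exact this
      · intro p hp'
        obtain ⟨q, hq, rfl⟩ := List.mem_map.1 hp'
        have h2 := hal q (List.mem_append_right _ hq)
        have h3 := h1 q hq
        obtain ⟨m, hm⟩ : ∃ m, q.2 = m + 1 := ⟨q.2 - 1, by omega⟩
        rw [al, hm] at h2
        simp only [al, hm, Nat.add_sub_cancel]
        simpa using h2
      · rw [List.pairwise_map]
        refine hp.2.1.imp_of_mem fun {p q} hp' hq' hpq => ?_
        have h3 := h1 p hp'
        have h4 := h1 q hq'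
        obtain ⟨m, hm⟩ : ∃ m, p.2 = m + 1 := ⟨p.2 - 1, by omega⟩
        refine ⟨by omega, fun h => ?_⟩
        have h5 := hpq.2 (by simp only at h; omega)
        rw [st, hm] at h5
        simp only [st, hm, Nat.add_sub_cancel]
        simpa using h5

end Pool.Agent.H12Letter
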