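import Mathlib

/-!
# Typed words: local validity, compactness and pumping
-/

namespace Pool.Agent.H12Letter

open Finset

section LinExt

/-- a finite set without nonempty subset in which every member has a predecessor can be
numbered along the arcs -/
theorem exists_numbering (arc : ℕ → ℕ → Prop) (S : Finset ℕ)
    (h : ∀ S' ⊆ S, S'.Nonempty → ∃ j ∈ S', ∀ i ∈ S', ¬ arc i j) :
    ∃ σ : ℕ → ℕ, (∀ i ∈ S, ∀ j ∈ S, σ i = σ j → i = j) ∧
      ∀ i ∈ S, ∀ j ∈ S, arc i j → σ i < σ j := by
  induction S using Finset.strongInduction with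
  | H S ih =>
    by_cases hS : S.Nonempty
    · obtain ⟨j0, hj0, hj⟩ := h S (Finset.Subset.refl S) hS
      obtain ⟨σ, hσ1, hσ2⟩ := ih (S.erase j0) (Finset.erase_ssubset hj0)
        (fun S' hS' => h S' (hS'.trans (Finset.erase_subset _ _)))
      refine ⟨fun x => if x = j0 then 0 else σ x + 1, ?_, ?_⟩
      · intro i hi j hj' hij
        by_cases h1 : i = j0
        · by_cases h2 : j = j0
          · rw [h1, h2]
          · simp [h1, h2] at hij
        · by_cases h2 : j = j0
          · simp [h1, h2] at hij
          · simp only [h1, h2, if_false, Nat.add_right_cancel_iff] at hij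
            exact hσ1 i (Finset.mem_erase.2 ⟨h1, hi⟩) j (Finset.mem_erase.2 ⟨h2, hj'⟩) hij
      · intro i hi j hj' hij
        by_cases h2 : j = j0
        · exact absurd (h2 ▸ hij) (hj i hi)
        · by_cases h1 : i = j0
          · simp [h1, h2]
          · simp only [h1, h2, if_false]
            exact Nat.succ_lt_succ
              (hσ2 i (Finset.mem_erase.2 ⟨h1, hi⟩) j (Finset.mem_erase.2 ⟨h2, hj'⟩) hij)
    · rw [Finset.not_nonempty_iff_eq_empty] at hS
      subst hS
      exact ⟨id, by simp, by simp⟩

end LinExt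

section Abstract

variable {α : Type} (OK : α → Prop) (Same Rev : α → α → Prop)

/-- the typed word `t` admits a valid new order of its positions -/
def Val (t : List α) : Prop :=
  (∀ a ∈ t, OK a) ∧ ∃ σ : ℕ → ℕ, ∀ (i j : ℕ) (a b : α), i < j → t[i]? = some a →
    t[j]? = some b → (σ i < σ j ∧ Same a b) ∨ (σ j < σ i ∧ Rev a b)

theorem Val.sublist {u t : List α} (h : Val OK Same Rev t) (hu : u.Sublist t) :
    Val OK Same Rev u := by
  obtain ⟨h1, σ, hσ⟩ := h
  obtain ⟨f, hf⟩ := List.sublist_iff_exists_orderEmbedding_getElem?_eq.1 hu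
  refine ⟨fun a ha => h1 a (hu.subset ha), σ ∘ f, fun i j a b hij hi hj => ?_⟩
  rw [hf] at hi hj
  exact hσ (f i) (f j) a b (f.strictMono hij) hi hj

/-- the arc relation: position `i` has to be numbered before position `j` -/
def Arc (t : List α) (i j : ℕ) : Prop :=
  ∃ a b, t[i]? = some a ∧ t[j]? = some b ∧ ((i < j ∧ ¬ Rev a b) ∨ (j < i ∧ ¬ Same b a))

theorem val_of_noBad {t : List α} (h1 : ∀ a ∈ t, OK a)
    (h : ∀ S' ⊆ Finset.range t.length, S'.Nonempty → ∃ j ∈ S', ∀ i ∈ S', ¬ Arc Same Rev t i j) :
    Val OK Same Rev t := by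
  obtain ⟨σ, hσ1, hσ2⟩ := exists_numbering _ _ h
  refine ⟨h1, σ, fun i j a b hij hi hj => ?_⟩
  have hi' : i ∈ Finset.range t.length := by
    rw [Finset.mem_range]
    exact (List.getElem?_eq_some_iff.1 hi).1
  have hj' : j ∈ Finset.range t.length := by
    rw [Finset.mem_range]
    exact (List.getElem?_eq_some_iff.1 hj).1
  rcases lt_trichotomy (σ i) (σ j) with hlt | heq | hgt
  · left
    refine ⟨hlt, ?_⟩
    by_contra hS
    have := hσ2 j hj' i hi' ⟨b, a, hj, hi, Or.inr ⟨hij, hS⟩⟩
    omega
  · exact absurd (hσ1 i hi' j hj' heq) (by omega)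
  · right
    refine ⟨hgt, ?_⟩
    by_contra hS
    have := hσ2 i hi' j hj' ⟨a, b, hi, hj, Or.inl ⟨hij, hS⟩⟩
    omega

/-- positions of the same type: the middle one of three may be dropped from a bad set -/
theorem exists_small_bad [Fintype α] [DecidableEq α] (t : List α) (S : Finset ℕ)
    (hS : S ⊆ Finset.range t.length) (hne : S.Nonempty)
    (hbad : ∀ j ∈ S, ∃ i ∈ S, Arc Same Rev t i j) :
    ∃ S' ⊆ S, S'.Nonempty ∧ (∀ j ∈ S', ∃ i ∈ S', Arc Same Rev t i j) ∧
      S'.card ≤ 2 * Fintype.card α := by
  induction S using Finset.strongInduction with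
  | H S ih =>
    by_cases hc : S.card ≤ 2 * Fintype.card α
    · exact ⟨S, Finset.Subset.refl S, hne, hbad, hc⟩
    · have hq : ∃ a : α, 2 < (S.filter fun i => t[i]? = some a).card := by
        by_contra hno
        push Not at hno
        apply hc
        have hcov : S ⊆ (Finset.univ : Finset α).biUnion
            (fun a => S.filter fun i => t[i]? = some a) := by
          intro i hi
          have hlt : i < t.length := Finset.mem_range.1 (hS hi)
          simp only [Finset.mem_biUnion, Finset.mem_univ, true_and, Finset.mem_filter]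
          exact ⟨t[i], hi, List.getElem?_eq_getElem hlt⟩
        calc S.card ≤ _ := Finset.card_le_card hcov
          _ ≤ ∑ a : α, (S.filter fun i => t[i]? = some a).card := Finset.card_biUnion_le
          _ ≤ ∑ _a : α, 2 := Finset.sum_le_sum fun a _ => hno a
          _ = 2 * Fintype.card α := by simp [mul_comm]
      obtain ⟨a, ha⟩ := hq
      obtain ⟨x, y, z, hxyz⟩ : ∃ x y z, x ∈ S ∧ y ∈ S ∧ z ∈ S ∧ x < y ∧ y < z ∧
          t[x]? = some a ∧ t[y]? = some a ∧ t[z]? = some a := by
        set U := S.filter fun i => t[i]? = some a with hU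
        have hUne : U.Nonempty := Finset.card_pos.1 (by omega)
        have hm := U.min'_mem hUne
        have hM := U.max'_mem hUne
        have : ((U.erase (U.min' hUne)).erase (U.max' hUne)).Nonempty := by
          apply Finset.card_pos.1
          have h1 := Finset.pred_card_le_card_erase (s := U) (a := U.min' hUne)
          have h2 := Finset.pred_card_le_card_erase (s := U.erase (U.min' hUne))
            (a := U.max' hUne)
          omega
        obtain ⟨y, hy⟩ := this
        rw [Finset.mem_erase, Finset.mem_erase] at hy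
        refine ⟨U.min' hUne, y, U.max' hUne, ?_⟩
        have h1 := Finset.mem_filter.1 hm
        have h2 := Finset.mem_filter.1 hM
        have h3 := Finset.mem_filter.1 hy.2.2
        refine ⟨h1.1, h3.1, h2.1, ?_, ?_, h1.2, h3.2, h2.2⟩
        · exact lt_of_le_of_ne (U.min'_le y hy.2.2) (Ne.symm hy.2.1)
        · exact lt_of_le_of_ne (U.le_max' y hy.2.2) hy.1
      obtain ⟨hx, hy, hz, hxy, hyz, hax, hay, haz⟩ := hxyz
      obtain ⟨S', hS', h1, h2, h3⟩ := ih (S.erase y) (Finset.erase_ssubset hy)
        ((Finset.erase_subset _ _).trans hS) ⟨x, Finset.mem_erase.2 ⟨by omega, hx⟩⟩ (by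
          intro j hj
          obtain ⟨hjy, hjS⟩ := Finset.mem_erase.1 hj
          obtain ⟨i, hi, hij⟩ := hbad j hjS
          by_cases hiy : i = y
          · subst hiy
            obtain ⟨a', b, ha', hb, hab⟩ := hij
            rw [hay] at ha'
            obtain rfl := Option.some.inj ha'
            rcases hab with ⟨hlt, hR⟩ | ⟨hlt, hR⟩
            · exact ⟨x, Finset.mem_erase.2 ⟨by omega, hx⟩, a, b, hax, hb,
                Or.inl ⟨by omega, hR⟩⟩
            · exact ⟨z, Finset.mem_erase.2 ⟨by omega, hz⟩, a, b, haz, hb,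
                Or.inr ⟨by omega, hR⟩⟩
          · exact ⟨i, Finset.mem_erase.2 ⟨hiy, hi⟩, hij⟩)
      exact ⟨S', hS'.trans (Finset.erase_subset _ _), h1, h2, h3⟩

/-- Compactness: a typed word is valid iff all its short subwords are -/
theorem val_of_short [Fintype α] {t : List α}
    (h : ∀ u : List α, u.Sublist t → u.length ≤ 2 * Fintype.card α → Val OK Same Rev u) :
    Val OK Same Rev t := by
  classical
  apply val_of_noBad
  · intro a ha
    have hpos : 0 < Fintype.card α := Fintype.card_pos_iff.2 ⟨a⟩
    exact (h [a] (List.singleton_sublist.2 ha) (by simp; omega)).1 a (by simp)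
  · intro S hS hne
    by_contra hno
    push Not at hno
    obtain ⟨S', hS', hne', hbad, hcard⟩ := exists_small_bad Same Rev t S hS hne hno
    have hS'' : ∀ i ∈ S', i < t.length := fun i hi => Finset.mem_range.1 (hS (hS' hi))
    -- the subword at the positions in S'
    set e := S'.orderEmbOfFin rfl with he
    set u : List α := List.ofFn fun x : Fin S'.card =>
      t[e x]'(hS'' _ (Finset.orderEmbOfFin_mem S' rfl x)) with hu
    have hlen : u.length = S'.card := by simp [hu]
    have hsub : u.Sublist t := by
      rw [List.sublist_iff_exists_fin_orderEmbedding_get_eq]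
      refine ⟨OrderEmbedding.ofStrictMono
        (fun x => ⟨e (Fin.cast hlen x), hS'' _ (Finset.orderEmbOfFin_mem S' rfl _)⟩) ?_, ?_⟩
      · intro x y hxy
        have : (Fin.cast hlen x) < Fin.cast hlen y := hxy
        exact e.strictMono this
      · intro x
        simp only [hu, List.get_eq_getElem, List.getElem_ofFn]
        rfl
    obtain ⟨-, σ, hσ⟩ := h u hsub (by omega)
    -- position of minimal number
    have hpos : 0 < S'.card := Finset.card_pos.2 hne'
    have : Nonempty (Fin S'.card) := ⟨⟨0, hpos⟩⟩
    obtain ⟨x0, hx0⟩ := Finite.exists_min (fun x : Fin S'.card => σ x)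
    obtain ⟨i, hi, hij⟩ := hbad (e x0) (Finset.orderEmbOfFin_mem S' rfl x0)
    obtain ⟨x1, hx1⟩ : ∃ x1, e x1 = i := by
      have : i ∈ Set.range e := by
        rw [he, Finset.range_orderEmbOfFin]
        exact hi
      exact this
    subst hx1
    obtain ⟨a, b, ha, hb, hab⟩ := hij
    have hget : ∀ x : Fin S'.card, u[(x : ℕ)]? = t[e x]? := by
      intro x
      rw [List.getElem?_eq_getElem (by rw [hlen]; exact x.2),
        List.getElem?_eq_getElem (hS'' _ (Finset.orderEmbOfFin_mem S' rfl x))]
      simp only [hu, List.getElem_ofFn]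
      rfl
    have ha' : u[(x1 : ℕ)]? = some a := by rw [hget]; exact ha
    have hb' : u[(x0 : ℕ)]? = some b := by rw [hget]; exact hb
    rcases hab with ⟨hlt, hR⟩ | ⟨hlt, hR⟩
    · have hlt' : (x1 : ℕ) < x0 := by
        have := e.lt_iff_lt.1 hlt
        exact this
      rcases hσ x1 x0 a b hlt' ha' hb' with h1 | h1
      · exact absurd h1.1 (not_lt.2 (hx0 x1))
      · exact hR h1.2
    · have hlt' : (x0 : ℕ) < x1 := by
        have := e.lt_iff_lt.1 hlt
        exact this
      rcases hσ x0 x1 b a hlt' hb' ha' with h1 | h1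
      · exact hR h1.2
      · exact absurd h1.1 (not_lt.2 (hx0 x1))

end Abstract

section Pump

variable {α A : Type}

/-- a short list as a vector of options -/
def enc (m : ℕ) (u : List α) : Fin m → Option α := fun i => u[(i : ℕ)]?

theorem enc_inj {m : ℕ} {u v : List α} (hu : u.length ≤ m) (hv : v.length ≤ m)
    (h : enc m u = enc m v) : u = v := by
  apply List.ext_getElem?
  intro i
  by_cases hi : i < m
  · exact congrFun h ⟨i, hi⟩
  · rw [List.getElem?_eq_none (by omega), List.getElem?_eq_none (by omega)]

/-- the short subwords of `t` -/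
def Sub (m : ℕ) (t : List α) : Set (Fin m → Option α) :=
  {g | ∃ u : List α, u.Sublist t ∧ u.length ≤ m ∧ enc m u = g}

theorem mem_sub_enc {m : ℕ} {t u : List α} (hu : u.length ≤ m) :
    enc m u ∈ Sub m t ↔ u.Sublist t := by
  constructor
  · rintro ⟨v, hv, hv', he⟩
    rw [← enc_inj hv' hu he]
    exact hv
  · intro h
    exact ⟨u, h, hu, rfl⟩

theorem sub_append_subset {m : ℕ} {t t' : List α} (h : Sub m t = Sub m t') (s : List α) :
    Sub m (t ++ s) ⊆ Sub m (t' ++ s) := by
  rintro g ⟨u, hu, hul, rfl⟩
  obtain ⟨u1, u2, rfl, h1, h2⟩ := List.sublist_append_iff.1 hu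
  rw [List.length_append] at hul
  have : enc m u1 ∈ Sub m t := ⟨u1, h1, by omega, rfl⟩
  rw [h, mem_sub_enc (by omega)] at this
  exact ⟨u1 ++ u2, this.append h2, by simpa using hul, rfl⟩

theorem sub_append {m : ℕ} {t t' : List α} (h : Sub m t = Sub m t') (s : List α) :
    Sub m (t ++ s) = Sub m (t' ++ s) :=
  Set.Subset.antisymm (sub_append_subset h s) (sub_append_subset h.symm s)

/-- all sets of short subwords of typed versions of the word `w` -/
def Types (m : ℕ) (π : α → A) (w : List A) : Set (Set (Fin m → Option α)) :=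
  {B | ∃ t : List α, t.map π = w ∧ Sub m t = B}

theorem types_append_subset {m : ℕ} {π : α → A} {w w' : List A}
    (h : Types m π w = Types m π w') (z : List A) :
    Types m π (w ++ z) ⊆ Types m π (w' ++ z) := by
  rintro B ⟨t, ht, rfl⟩
  rw [List.map_eq_append_iff] at ht
  obtain ⟨t1, t2, rfl, h1, h2⟩ := ht
  have : Sub m t1 ∈ Types m π w := ⟨t1, h1, rfl⟩
  rw [h] at this
  obtain ⟨t1', h1', h1''⟩ := this
  exact ⟨t1' ++ t2, by rw [List.map_append, h1', h2], sub_append h1'' t2⟩

theorem types_append {m : ℕ} {π : α → A} {w w' : List A}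
    (h : Types m π w = Types m π w') (z : List A) :
    Types m π (w ++ z) = Types m π (w' ++ z) :=
  Set.Subset.antisymm (types_append_subset h z) (types_append_subset h.symm z)

/-- the pumping lemma -/
theorem exists_short [Fintype α] (m : ℕ) (π : α → A) (w : List A) :
    ∃ w' : List A, w'.Sublist w ∧ w'.length < 2 ^ 2 ^ (Fintype.card α + 1) ^ m ∧
      Types m π w' = Types m π w := by
  classical
  induction hn : w.length using Nat.strong_induction_on generalizing w with
  | _ n ih =>
    by_cases hlt : w.length < 2 ^ 2 ^ (Fintype.card α + 1) ^ m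
    · exact ⟨w, List.Sublist.refl w, hlt, rfl⟩
    · have hcard : Fintype.card (Set (Set (Fin m → Option α))) <
          Fintype.card (Fin (w.length + 1)) := by
        rw [Fintype.card_set, Fintype.card_set, Fintype.card_fun, Fintype.card_option,
          Fintype.card_fin, Fintype.card_fin]
        omega
      obtain ⟨i, j, hne, hij⟩ := Fintype.exists_ne_map_eq_of_card_lt
        (fun i : Fin (w.length + 1) => Types m π (w.take i)) hcard
      wlog hlt' : i < j generalizing i j with H
      · exact H j i hne.symm hij.symm (lt_of_le_of_ne (not_lt.1 hlt') hne.symm)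
      have hij' : (i : ℕ) < j := hlt'
      have hj : (j : ℕ) ≤ w.length := Nat.lt_succ_iff.1 j.2
      have hsub : (w.take i ++ w.drop j).Sublist w := by
        conv_rhs => rw [← List.take_append_drop (j : ℕ) w]
        exact List.Sublist.append (List.take_sublist_take_left (by omega)) (List.Sublist.refl _)
      have hlen : (w.take i ++ w.drop j).length < n := by
        rw [← hn, List.length_append, List.length_take, List.length_drop]
        omega
      obtain ⟨w', h1, h2, h3⟩ := ih _ hlen (w.take i ++ w.drop j) rfl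
      refine ⟨w', h1.trans hsub, h2, h3.trans ?_⟩
      rw [types_append hij, List.take_append_drop]

theorem exists_val_iff [Fintype α] {m : ℕ} (hm : 2 * Fintype.card α ≤ m) {π : α → A}
    {w w' : List A} (h : Types m π w' = Types m π w)
    (OK : α → Prop) (Same Rev : α → α → Prop)
    (hw : ∃ t : List α, t.map π = w' ∧ Val OK Same Rev t) :
    ∃ t : List α, t.map π = w ∧ Val OK Same Rev t := by
  obtain ⟨t, ht, hv⟩ := hw
  have : Sub m t ∈ Types m π w' := ⟨t, ht, rfl⟩
  rw [h] at this
  obtain ⟨t', ht', hs⟩ := this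
  refine ⟨t', ht', val_of_short OK Same Rev fun u hu hul => ?_⟩
  apply hv.sublist
  rw [← mem_sub_enc (m := m) (by omega), ← hs, mem_sub_enc (by omega)]
  exact hu

end Pump

end Pool.Agent.H12Letter
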