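import Pool.Agent.H12Letter.Defs
import Pool.Agent.H12Letter.Words
import Pool.Agent.H12Letter.Prod

/-!
# The classes of graphs presented by a decoder and a product of blocks
-/

namespace Pool.Agent.H12Letter

open Finset

/-- the graph on `V` with letters `c`, order `σ` and decoder `D` -/
def LG {V : Type} (D : List (ℕ × ℕ)) (c σ : V → ℕ) : SimpleGraph V where
  Adj u v := (σ u < σ v ∧ (c u, c v) ∈ D) ∨ (σ v < σ u ∧ (c v, c u) ∈ D)
  symm := ⟨fun u v h => h.symm⟩
  loopless := ⟨fun u h => by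
    rcases h with h | h <;> exact absurd h.1 (lt_irrefl _)⟩

structure Rep {V : Type} (k : ℕ) (D : List (ℕ × ℕ)) (G : SimpleGraph V) (c σ : V → ℕ) :
    Prop where
  inj : Function.Injective σ
  lt : ∀ v, c v < k
  adj : ∀ u v, σ u < σ v → (G.Adj u v ↔ (c u, c v) ∈ D)

structure Pres {V : Type} (k : ℕ) (D : List (ℕ × ℕ)) (e : List (ℕ × List ℕ))
    (G : SimpleGraph V) (c β σ : V → ℕ) : Prop extends Rep k D G c σ where
  hal : ∀ v, al e (β v) (c v)
  hst : ∀ u v, u ≠ v → β u = β v → st e (β u)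
  mono : ∀ u v, β u < β v → σ u < σ v

theorem rep_LG {V : Type} {k : ℕ} {D : List (ℕ × ℕ)} {c σ : V → ℕ}
    (hσ : Function.Injective σ) (hc : ∀ v, c v < k) : Rep k D (LG D c σ) c σ :=
  ⟨hσ, hc, fun u v huv => by
    constructor
    · rintro (h | h)
      · exact h.2
      · exact absurd h.1 (by omega)
    · intro h
      exact Or.inl ⟨huv, h⟩⟩

theorem emb_of_mono {V W : Type} {k k' : ℕ} {D : List (ℕ × ℕ)} {G : SimpleGraph V}
    {H : SimpleGraph W} {c σ : V → ℕ} {c' σ' : W → ℕ} (h : Rep k D G c σ)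
    (h' : Rep k' D H c' σ') (φ : V → W) (hc : ∀ v, c' (φ v) = c v)
    (hσ : ∀ u v, σ u < σ v → σ' (φ u) < σ' (φ v)) : Nonempty (G ↪g H) := by
  have hinj : Function.Injective φ := by
    intro u v huv
    by_contra hne
    rcases lt_trichotomy (σ u) (σ v) with h1 | h1 | h1
    · have := hσ u v h1
      rw [huv] at this
      omega
    · exact hne (h.inj h1)
    · have := hσ v u h1
      rw [huv] at this
      omega
  have key : ∀ u v, σ u < σ v → (H.Adj (φ u) (φ v) ↔ G.Adj u v) := by
    intro u v huv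
    rw [h.adj u v huv, h'.adj _ _ (hσ u v huv), hc, hc]
  refine ⟨⟨⟨φ, hinj⟩, ?_⟩⟩
  intro u v
  change H.Adj (φ u) (φ v) ↔ G.Adj u v
  rcases lt_trichotomy (σ u) (σ v) with h1 | h1 | h1
  · exact key u v h1
  · have := h.inj h1
    subst this
    simp
  · rw [H.adj_comm, G.adj_comm]
    exact key v u h1

theorem Rep.comap {V W : Type} {k : ℕ} {D : List (ℕ × ℕ)} {G : SimpleGraph V}
    {H : SimpleGraph W} {c σ : W → ℕ} (h : Rep k D H c σ) (f : G ↪g H) :
    Rep k D G (c ∘ f) (σ ∘ f) :=
  ⟨h.inj.comp f.injective, fun v => h.lt _, fun u v huv => by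
    exact f.map_adj_iff.symm.trans (h.adj _ _ huv)⟩

theorem Pres.comap {V W : Type} {k : ℕ} {D : List (ℕ × ℕ)} {e : List (ℕ × List ℕ)}
    {G : SimpleGraph V} {H : SimpleGraph W} {c β σ : W → ℕ} (h : Pres k D e H c β σ)
    (f : G ↪g H) : Pres k D e G (c ∘ f) (β ∘ f) (σ ∘ f) :=
  ⟨h.toRep.comap f, fun v => h.hal _, fun u v huv => h.hst _ _ (f.injective.ne huv),
    fun u v => h.mono _ _⟩

/-- `G` belongs to the class of `(k, D, e)` -/
def InC (k : ℕ) (D : List (ℕ × ℕ)) (e : List (ℕ × List ℕ)) {V : Type} (G : SimpleGraph V) :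
    Prop := ∃ c β σ : V → ℕ, Pres k D e G c β σ

theorem InC.of_emb {k : ℕ} {D : List (ℕ × ℕ)} {e : List (ℕ × List ℕ)} {V W : Type}
    {G : SimpleGraph V} {H : SimpleGraph W} (f : G ↪g H) (h : InC k D e H) : InC k D e G := by
  obtain ⟨c, β, σ, h⟩ := h
  exact ⟨_, _, _, h.comap f⟩

/-- the class of `(k, D, e)` -/
def Cls (k : ℕ) (D : List (ℕ × ℕ)) (e : List (ℕ × List ℕ)) : Set FG := {G | InC k D e G.2}

theorem cls_hereditary (k : ℕ) (D : List (ℕ × ℕ)) (e : List (ℕ × List ℕ)) :
    Hereditary (Cls k D e) := by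
  rintro G H ⟨f⟩ hH
  exact InC.of_emb f hH

/-- number of smaller vertices -/
noncomputable def rk {V : Type} [Fintype V] (σ : V → ℕ) (v : V) : ℕ :=
  (Finset.univ.filter fun u => σ u < σ v).card

theorem rk_lt {V : Type} [Fintype V] (σ : V → ℕ) (v : V) : rk σ v < Fintype.card V := by
  classical
  apply Finset.card_lt_card
  rw [Finset.ssubset_univ_iff]
  intro h
  have := Finset.mem_univ v
  rw [← h, Finset.mem_filter] at this
  exact lt_irrefl _ this.2

theorem rk_mono {V : Type} [Fintype V] (σ : V → ℕ) {u v : V} (h : σ u < σ v) :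
    rk σ u < rk σ v := by
  classical
  apply Finset.card_lt_card
  rw [Finset.ssubset_iff_of_subset]
  · exact ⟨u, by simp [h], by simp⟩
  · intro x hx
    simp only [Finset.mem_filter, Finset.mem_univ, true_and] at hx ⊢
    omega

/-- the vertices of the universal graph -/
abbrev UV (k N : ℕ) (e : List (ℕ × List ℕ)) : Type :=
  {v : Fin e.length × Fin (N + 1) × Fin k // al e v.1 v.2.2 ∧ (st e v.1 ∨ v.2.1 = 0)}

theorem lex_lt {N k j j' i i' x x' : ℕ} (hi : i < N) (hx : x < k)
    (h : j < j' ∨ (j = j' ∧ i < i')) : (j * N + i) * k + x < (j' * N + i') * k + x' := by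
  have h1 : j * N + i + 1 ≤ j' * N + i' := by
    rcases h with h | ⟨rfl, h⟩
    · have : (j + 1) * N ≤ j' * N := Nat.mul_le_mul_right N h
      rw [Nat.add_mul, Nat.one_mul] at this
      omega
    · omega
  have h2 : (j * N + i + 1) * k ≤ (j' * N + i') * k := Nat.mul_le_mul_right k h1
  rw [Nat.add_mul (j * N + i) 1 k, Nat.one_mul] at h2
  omega

theorem exists_universal (k : ℕ) (D : List (ℕ × ℕ)) (e : List (ℕ × List ℕ)) (he : okE e)
    (N : ℕ) : ∃ U ∈ Cls k D e, ∀ G ∈ Cls k D e, G.1 ≤ N → Emb G U := by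
  classical
  set c' : UV k N e → ℕ := fun v => v.1.2.2 with hc'
  set β' : UV k N e → ℕ := fun v => v.1.1 with hβ'
  set σ' : UV k N e → ℕ := fun v => (v.1.1 * (N + 1) + v.1.2.1) * k + v.1.2.2 with hσ'
  have hinj : Function.Injective σ' := by
    intro u v huv
    have key : ∀ u v : UV k N e, σ' u = σ' v → ¬ ((u.1.1 : ℕ) < v.1.1 ∨
        ((u.1.1 : ℕ) = v.1.1 ∧ (u.1.2.1 : ℕ) < v.1.2.1)) := by
      intro u v huv hlt
      have := lex_lt (x' := (v.1.2.2 : ℕ)) u.1.2.1.2 u.1.2.2.2 hlt
      simp only [hσ'] at huv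
      omega
    have h1 := key u v huv
    have h2 := key v u huv.symm
    have h3 : (u.1.1 : ℕ) = v.1.1 := by omega
    have h4 : (u.1.2.1 : ℕ) = v.1.2.1 := by omega
    have h5 : (u.1.2.2 : ℕ) = v.1.2.2 := by
      simp only [hσ'] at huv
      rw [h3, h4] at huv
      omega
    apply Subtype.ext
    apply Prod.ext
    · exact Fin.ext h3
    · exact Prod.ext (Fin.ext h4) (Fin.ext h5)
  have hU : Pres k D e (LG D c' σ') c' β' σ' := by
    refine ⟨rep_LG hinj fun v => v.1.2.2.2, fun v => v.2.1, ?_, ?_⟩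
    · intro u v huv hβ
      by_contra hs
      have hu := u.2.2.resolve_left hs
      have hβ2 : (u.1.1 : ℕ) = v.1.1 := hβ
      have hv := v.2.2.resolve_left (by rw [← hβ2]; exact hs)
      apply huv
      -- the block has at most one letter
      have hb : (e.getD (u.1.1 : ℕ) (0, [])).1 = 0 := by
        by_contra h0
        exact hs h0
      have hmem : e.getD (u.1.1 : ℕ) (0, []) ∈ e := by
        rw [List.getD_eq_getElem _ _ u.1.1.2]
        exact List.getElem_mem _
      have hlen := he _ hmem hb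
      have h1 : (u.1.2.2 : ℕ) ∈ (e.getD (u.1.1 : ℕ) (0, [])).2 := u.2.1
      have h2 : (v.1.2.2 : ℕ) ∈ (e.getD (u.1.1 : ℕ) (0, [])).2 := by
        have := v.2.1
        rw [al, ← hβ2] at this
        exact this
      have h3 : (u.1.2.2 : ℕ) = v.1.2.2 := by
        generalize (e.getD (u.1.1 : ℕ) (0, [])).2 = L at hlen h1 h2
        match L, hlen with
        | [], _ => simp at h1
        | [a], _ => rw [List.mem_singleton] at h1 h2; rw [h1, h2]
        | a :: b :: L, hlen => simp at hlen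
      apply Subtype.ext
      apply Prod.ext
      · exact Fin.ext hβ2
      · exact Prod.ext (hu.trans hv.symm) (Fin.ext h3)
    · intro u v huv
      exact lex_lt u.1.2.1.2 u.1.2.2.2 (Or.inl huv)
  refine ⟨⟨Fintype.card (UV k N e), (LG D c' σ').overFin rfl⟩, ?_, ?_⟩
  · exact InC.of_emb ((LG D c' σ').overFinIso rfl).symm.toEmbedding ⟨c', β', σ', hU⟩
  · rintro ⟨n, G⟩ ⟨c, β, σ, h⟩ hn
    simp only at hn c β σ h
    have hφ : ∀ v : Fin n, al e (β v) (c v) := h.hal
    have hrk : ∀ v : Fin n, rk σ v < N + 1 := by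
      intro v
      have := rk_lt σ v
      rw [Fintype.card_fin] at this
      omega
    set φ : Fin n → UV k N e := fun v =>
      ⟨(⟨β v, (h.hal v).lt⟩, (if st e (β v) then ⟨rk σ v, hrk v⟩ else 0), ⟨c v, h.lt v⟩),
        h.hal v, by
          by_cases hs : st e (β v)
          · exact Or.inl hs
          · right
            simp [hs]⟩ with hφ'
    obtain ⟨f⟩ := emb_of_mono h.toRep hU.toRep φ (fun v => rfl) (by
      intro u v huv
      apply lex_lt
      · exact Fin.is_lt _
      · exact Fin.is_lt _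
      · simp only [hφ']
        rcases lt_trichotomy (β u) (β v) with h1 | h1 | h1
        · exact Or.inl h1
        · right
          refine ⟨h1, ?_⟩
          have hne : u ≠ v := by
            rintro rfl
            exact lt_irrefl _ huv
          have hs := h.hst u v hne h1
          have hs' : st e (β v) := h1 ▸ hs
          simp only [hs, hs', if_true]
          exact rk_mono σ huv
        · have := h.mono _ _ h1
          omega)
    exact ⟨f.trans ((LG D c' σ').overFinIso rfl).toEmbedding⟩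

theorem cls_jep (k : ℕ) (D : List (ℕ × ℕ)) (e : List (ℕ × List ℕ)) (he : okE e) :
    JEP (Cls k D e) := by
  intro G hG H hH
  obtain ⟨U, hU, h⟩ := exists_universal k D e he (max G.1 H.1)
  exact ⟨U, hU, h G hG (le_max_left _ _), h H hH (le_max_right _ _)⟩

end Pool.Agent.H12Letter
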