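import Pool.Agent.H12Letter.WordClass

/-!
# Certificates for atomicity, for its failure, and for bounded lettericity
-/

namespace Pool.Agent.H12Letter

open Finset

/-- all lists of length `n` with members in `S` -/
def tuples {α : Type} (S : List α) : ℕ → List (List α)
  | 0 => [[]]
  | n + 1 => (tuples S n).flatMap fun l => S.map fun x => x :: l

theorem mem_tuples {α : Type} {S : List α} {n : ℕ} {l : List α} :
    l ∈ tuples S n ↔ l.length = n ∧ ∀ x ∈ l, x ∈ S := by
  induction n generalizing l with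
  | zero =>
    simp only [tuples, List.mem_singleton]
    constructor
    · rintro rfl
      simp
    · rintro ⟨h, -⟩
      exact List.length_eq_zero_iff.1 h
  | succ n ih =>
    simp only [tuples, List.mem_flatMap, List.mem_map]
    constructor
    · rintro ⟨l', hl', x, hx, rfl⟩
      obtain ⟨h1, h2⟩ := ih.1 hl'
      refine ⟨by simp [h1], fun y hy => ?_⟩
      rcases List.mem_cons.1 hy with rfl | hy
      · exact hx
      · exact h2 y hy
    · rintro ⟨h1, h2⟩
      cases l with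
      | nil => simp at h1
      | cons x l =>
        exact ⟨l, ih.2 ⟨by simpa using h1, fun y hy => h2 y (by simp [hy])⟩, x,
          h2 x (by simp), rfl⟩

def pairs (k : ℕ) : List (ℕ × ℕ) := (List.range k).flatMap fun x => (List.range k).map fun y => (x, y)

theorem mem_pairs {k : ℕ} {p : ℕ × ℕ} : p ∈ pairs k ↔ p.1 < k ∧ p.2 < k := by
  rcases p with ⟨x, y⟩
  simp only [pairs, List.mem_flatMap, List.mem_range, List.mem_map, Prod.mk.injEq]
  constructor
  · rintro ⟨a, ha, b, hb, rfl, rfl⟩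
    exact ⟨ha, hb⟩
  · rintro ⟨h1, h2⟩
    exact ⟨x, h1, y, h2, rfl, rfl⟩

theorem length_pairs (k : ℕ) : (pairs k).length = k * k := by
  simp [pairs, List.length_flatMap]

/-- all decoders on the letters `< k` -/
def rels (k : ℕ) : List (List (ℕ × ℕ)) :=
  (List.range (k * k + 1)).flatMap fun n => tuples (pairs k) n

theorem exists_rel (k : ℕ) (R : ℕ → ℕ → Prop) :
    ∃ D ∈ rels k, ∀ x < k, ∀ y < k, ((x, y) ∈ D ↔ R x y) := by
  classical
  refine ⟨(pairs k).filter fun p => R p.1 p.2, ?_, ?_⟩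
  · rw [rels, List.mem_flatMap]
    refine ⟨((pairs k).filter fun p => R p.1 p.2).length, ?_, ?_⟩
    · rw [List.mem_range]
      have := List.length_filter_le (fun p : ℕ × ℕ => decide (R p.1 p.2)) (pairs k)
      rw [length_pairs] at this
      omega
    · rw [mem_tuples]
      exact ⟨rfl, fun x hx => (List.mem_filter.1 hx).1⟩
  · intro x hx y hy
    rw [List.mem_filter, mem_pairs, decide_eq_true_iff]
    exact ⟨fun h => h.2, fun h => ⟨⟨hx, hy⟩, h⟩⟩

theorem letterGraph_iff {k : ℕ} {G : FG} :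
    LetterGraph k G ↔ ∃ D ∈ rels k, ∃ c σ : Fin G.1 → ℕ, Rep k D G.2 c σ := by
  constructor
  · rintro ⟨D, w, σ, h⟩
    obtain ⟨D', hD', hD⟩ := exists_rel k fun x y => ∃ (hx : x < k) (hy : y < k),
      D ⟨x, hx⟩ ⟨y, hy⟩
    refine ⟨D', hD', fun v => w (σ.symm v), fun v => σ.symm v, ?_, fun v => Fin.is_lt _, ?_⟩
    · exact Fin.val_injective.comp σ.symm.injective
    · intro u v huv
      have := h (σ.symm u) (σ.symm v) huv
      rw [Equiv.apply_symm_apply, Equiv.apply_symm_apply] at this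
      rw [this, hD _ (Fin.is_lt _) _ (Fin.is_lt _)]
      constructor
      · intro hh
        exact ⟨Fin.is_lt _, Fin.is_lt _, hh⟩
      · rintro ⟨_, _, hh⟩
        exact hh
  · rintro ⟨D, -, c, σ, h⟩
    obtain ⟨en, hen⟩ := exists_enum σ h.inj
    have hc : Fintype.card (Fin G.1) = G.1 := Fintype.card_fin _
    refine ⟨fun x y => ((x : ℕ), (y : ℕ)) ∈ D, fun i => ⟨c (en (Fin.cast hc.symm i)), h.lt _⟩,
      (finCongr hc.symm).trans en, ?_⟩
    intro i j hij
    exact h.adj _ _ (hen _ _ hij)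

theorem letterGraph_of_emb {k : ℕ} {G H : FG} (h : Emb G H) (hH : LetterGraph k H) :
    LetterGraph k G := by
  rw [letterGraph_iff] at hH ⊢
  obtain ⟨D, hD, c, σ, hr⟩ := hH
  obtain ⟨f⟩ := h
  exact ⟨D, hD, _, _, hr.comap f⟩

/-- an embedding into the graph of a word goes into the graph of a short subword -/
theorem exists_sub {D : List (ℕ × ℕ)} {w : List ℕ} {G : FG} (h : Emb G (WG D w)) :
    ∃ u : List ℕ, u.Sublist w ∧ u.length = G.1 ∧ Emb G (WG D u) ∧ Emb (WG D u) G := by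
  obtain ⟨k, hk⟩ := exists_bound w
  obtain ⟨f⟩ := h
  have hr := (rep_LW D hk).comap f
  obtain ⟨en, hen, h1, h2, h3⟩ := exists_word hr
  refine ⟨_, ?_, ?_, h2, h3⟩
  · rw [List.sublist_iff_exists_fin_orderEmbedding_get_eq]
    refine ⟨OrderEmbedding.ofStrictMono
      (fun i => f (en (Fin.cast (List.length_ofFn) i))) ?_, ?_⟩
    · intro i j hij
      exact hen _ _ hij
    · intro i
      simp
      rfl
  · rw [List.length_ofFn, Fintype.card_fin]

/-- forbidden subwords -/
theorem exists_forb (F : List (ℕ × List (ℕ × ℕ))) (k : ℕ) (D : List (ℕ × ℕ)) :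
    ∃ A : List (List ℕ), ∀ w : List ℕ, (∀ x ∈ w, x < k) →
      (WG D w ∈ Free F ↔ ∀ u ∈ A, ¬ u.Sublist w) := by
  classical
  refine ⟨F.flatMap fun f => (tuples (List.range k) f.1).filter fun u =>
    Emb (decodeG f) (WG D u), fun w hw => ?_⟩
  constructor
  · intro h u hu hs
    obtain ⟨f, hf, hu⟩ := List.mem_flatMap.1 hu
    have := (List.mem_filter.1 hu).2
    rw [decide_eq_true_iff] at this
    exact h f hf (this.trans (emb_sublist D hs))
  · intro h f hf he
    obtain ⟨u, hu, hul, he', -⟩ := exists_sub he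
    apply h u _ hu
    refine List.mem_flatMap.2 ⟨f, hf, List.mem_filter.2 ⟨mem_tuples.2 ⟨hul, fun x hx => ?_⟩, ?_⟩⟩
    · exact List.mem_range.2 (hw x (hu.subset hx))
    · rw [decide_eq_true_iff]
      exact he'

theorem directed_union {ι : Type} (X : Set FG) (hX : JEP X) (hne : X.Nonempty)
    (Y : ι → Set FG) (hY : ∀ i, Hereditary (Y i)) (I : List ι)
    (hI : ∀ i ∈ I, ¬ X ⊆ Y i) : ∃ G ∈ X, ∀ i ∈ I, G ∉ Y i := by
  induction I with
  | nil =>
    obtain ⟨G, hG⟩ := hne
    exact ⟨G, hG, by simp⟩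
  | cons i I ih =>
    obtain ⟨G, hG, h1⟩ := ih fun j hj => hI j (by simp [hj])
    obtain ⟨H, hH, h2⟩ := Set.not_subset.1 (hI i (by simp))
    obtain ⟨K, hK, h3, h4⟩ := hX G hG H hH
    refine ⟨K, hK, fun j hj hKj => ?_⟩
    rcases List.mem_cons.1 hj with rfl | hj
    · exact h2 (hY _ _ _ h4 hKj)
    · exact h1 j hj (hY _ _ _ h3 hKj)

/-- the certificate for atomicity -/
def CertA (F : List (ℕ × List (ℕ × ℕ))) (k : ℕ) (D : List (ℕ × ℕ)) (e : List (ℕ × List ℕ)) :
    Prop :=
  okE e ∧ (∀ f ∈ F, ¬ InC k D e (decodeG f).2) ∧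
    ∀ n < Nb k k e.length, ∀ D' ∈ rels k, ∀ w ∈ tuples (List.range k) n,
      WG D' w ∈ Free F → InC k D e (LW D' w)

theorem exists_rep_word {k : ℕ} {G : FG} (h : LetterGraph k G) :
    ∃ D ∈ rels k, ∃ w : List ℕ, (∀ x ∈ w, x < k) ∧ w.length = G.1 ∧ Emb G (WG D w) ∧
      Emb (WG D w) G := by
  obtain ⟨D, hD, c, σ, hr⟩ := letterGraph_iff.1 h
  obtain ⟨en, hen, h1, h2, h3⟩ := exists_word hr
  exact ⟨D, hD, _, h1, by rw [List.length_ofFn, Fintype.card_fin], h2, h3⟩

theorem cls_subset_free {F : List (ℕ × List (ℕ × ℕ))} {k : ℕ} {D : List (ℕ × ℕ)}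
    {e : List (ℕ × List ℕ)} (h : ∀ f ∈ F, ¬ InC k D e (decodeG f).2) :
    Cls k D e ⊆ Free F := by
  intro G hG f hf he
  exact h f hf (cls_hereditary k D e _ _ he hG)

theorem certA_sound {F : List (ℕ × List (ℕ × ℕ))} {k : ℕ} {D : List (ℕ × ℕ)}
    {e : List (ℕ × List ℕ)} (hk : ∀ G ∈ Free F, LetterGraph k G) (h : CertA F k D e) :
    JEP (Free F) := by
  obtain ⟨h1, h2, h3⟩ := h
  have : Free F = Cls k D e := by
    refine Set.Subset.antisymm ?_ (cls_subset_free h2)
    intro G hG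
    obtain ⟨D', hD', w, hw, -, he1, he2⟩ := exists_rep_word (hk G hG)
    obtain ⟨w', hs, hlen, hp⟩ := exists_pump k k e.length w hw
    have hin := h3 w'.length hlen D' hD' w' (mem_tuples.2 ⟨rfl, fun x hx =>
      List.mem_range.2 (hw x (hs.subset hx))⟩)
      (free_hereditary F _ _ ((emb_sublist D' hs).trans he2) hG)
    exact cls_hereditary k D e _ _ he1 (hp D' D e rfl hin)
  rw [this]
  exact cls_jep k D e h1

theorem certA_complete {F : List (ℕ × List (ℕ × ℕ))} {k : ℕ}
    (hk : ∀ G ∈ Free F, LetterGraph k G) (hJ : JEP (Free F)) (hne : (Free F).Nonempty) :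
    ∃ D e, CertA F k D e := by
  classical
  choose A hA using fun D => exists_forb F k D
  choose E hE using fun D => decomp k (A D)
  have hsub : ∀ D, ∀ e ∈ E D, Cls k D e ⊆ Free F := by
    intro D e he G hG
    obtain ⟨w, hw, hm, h1, h2⟩ := exists_typed hG
    have : WG D w ∈ Free F := (hA D w hw).2 (((hE D).2 w hw).2 ⟨e, he, hm⟩)
    exact free_hereditary F G (WG D w) h1 this
  have hcov : ∀ G ∈ Free F, ∃ D ∈ rels k, ∃ e ∈ E D, G ∈ Cls k D e := by
    intro G hG
    obtain ⟨D, hD, w, hw, -, he1, he2⟩ := exists_rep_word (hk G hG)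
    have hw' : WG D w ∈ Free F := free_hereditary F _ _ he2 hG
    obtain ⟨e, he, hm⟩ := ((hE D).2 w hw).1 ((hA D w hw).1 hw')
    exact ⟨D, hD, e, he, cls_hereditary k D e _ _ he1 (inC_of_mat hw hm)⟩
  obtain ⟨p, hp, hpX⟩ : ∃ p ∈ (rels k).flatMap fun D => (E D).map fun e => (D, e),
      Free F ⊆ Cls k p.1 p.2 := by
    by_contra hno
    push Not at hno
    obtain ⟨G, hG, h⟩ := directed_union (Free F) hJ hne
      (fun p : List (ℕ × ℕ) × List (ℕ × List ℕ) => Cls k p.1 p.2)
      (fun p => cls_hereditary _ _ _) _ hno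
    obtain ⟨D, hD, e, he, hGe⟩ := hcov G hG
    exact h (D, e) (List.mem_flatMap.2 ⟨D, hD, List.mem_map.2 ⟨e, he, rfl⟩⟩) hGe
  obtain ⟨D, hD, hp⟩ := List.mem_flatMap.1 hp
  obtain ⟨e, he, rfl⟩ := List.mem_map.1 hp
  refine ⟨D, e, (hE D).1 e he, ?_, ?_⟩
  · intro f hf h
    have : decodeG f ∈ Free F := hsub D e he h
    exact this f hf (Emb.refl _)
  · intro n _ D' _ w _ hw
    exact hpX hw

/-- the certificate for the failure of atomicity -/
def CertN (F : List (ℕ × List (ℕ × ℕ))) (k : ℕ) (g1 g2 : ℕ × List (ℕ × ℕ)) : Prop :=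
  decodeG g1 ∈ Free F ∧ decodeG g2 ∈ Free F ∧
    ∀ n < g1.1 + g2.1 + 1, ∀ D ∈ rels k, ∀ w ∈ tuples (List.range k) n,
      ¬ (WG D w ∈ Free F ∧ Emb (decodeG g1) (WG D w) ∧ Emb (decodeG g2) (WG D w))

theorem exists_code (G : FG) : ∃ g, decodeG g = G := by
  classical
  obtain ⟨n, G⟩ := G
  refine ⟨⟨n, (pairs n).filter fun p => ∃ (h1 : p.1 < n) (h2 : p.2 < n),
    G.Adj ⟨p.1, h1⟩ ⟨p.2, h2⟩⟩, ?_⟩
  unfold decodeG
  congr 1
  ext i j
  rw [SimpleGraph.fromRel_adj]
  simp only [List.mem_filter, mem_pairs, decide_eq_true_iff]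
  constructor
  · rintro ⟨-, h | h⟩
    · obtain ⟨-, _, _, h⟩ := h
      exact h
    · obtain ⟨-, _, _, h⟩ := h
      exact h.symm
  · intro h
    exact ⟨h.ne, Or.inl ⟨⟨i.2, j.2⟩, i.2, j.2, h⟩⟩

theorem certN_sound {F : List (ℕ × List (ℕ × ℕ))} {k : ℕ} {g1 g2 : ℕ × List (ℕ × ℕ)}
    (hk : ∀ G ∈ Free F, LetterGraph k G) (h : CertN F k g1 g2) : ¬ JEP (Free F) := by
  classical
  intro hJ
  obtain ⟨h1, h2, h3⟩ := h
  obtain ⟨K, hK, ⟨f1⟩, ⟨f2⟩⟩ := hJ _ h1 _ h2
  set S : Finset (Fin K.1) := Finset.univ.image f1 ∪ Finset.univ.image f2 with hS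
  have hcard : S.card ≤ g1.1 + g2.1 := by
    refine (Finset.card_union_le _ _).trans (Nat.add_le_add ?_ ?_)
    · exact Finset.card_image_le.trans (Finset.card_fin _).le
    · exact Finset.card_image_le.trans (Finset.card_fin _).le
  set KS : SimpleGraph {x // x ∈ S} := K.2.comap Subtype.val with hKS
  have eS : KS ↪g K.2 := SimpleGraph.Embedding.comap ⟨Subtype.val, Subtype.val_injective⟩ K.2
  have hmem1 : ∀ v, f1 v ∈ S := fun v =>
    Finset.mem_union_left _ (Finset.mem_image_of_mem _ (Finset.mem_univ v))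
  have hmem2 : ∀ v, f2 v ∈ S := fun v =>
    Finset.mem_union_right _ (Finset.mem_image_of_mem _ (Finset.mem_univ v))
  have e1 : (decodeG g1).2 ↪g KS :=
    ⟨⟨fun v => ⟨f1 v, hmem1 v⟩, fun u v huv => f1.injective (Subtype.ext_iff.1 huv)⟩,
      fun {u v} => f1.map_adj_iff⟩
  have e2 : (decodeG g2).2 ↪g KS :=
    ⟨⟨fun v => ⟨f2 v, hmem2 v⟩, fun u v huv => f2.injective (Subtype.ext_iff.1 huv)⟩,
      fun {u v} => f2.map_adj_iff⟩
  obtain ⟨D, hD, c, σ, hr⟩ := letterGraph_iff.1 (hk K hK)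
  have hr' := hr.comap eS
  obtain ⟨en, hen, hw, ⟨i1⟩, ⟨i2⟩⟩ := exists_word hr'
  have hlen : (List.ofFn fun i => (c ∘ eS) (en i)).length = S.card := by
    rw [List.length_ofFn, Fintype.card_coe]
  apply h3 (List.ofFn fun i => (c ∘ eS) (en i)).length (by rw [hlen]; omega) D hD _
    (mem_tuples.2 ⟨rfl, fun x hx => List.mem_range.2 (hw x hx)⟩)
  exact ⟨free_hereditary F _ _ ⟨i2.trans eS⟩ hK, ⟨e1.trans i1⟩, ⟨e2.trans i1⟩⟩

theorem certN_complete {F : List (ℕ × List (ℕ × ℕ))} (k : ℕ) (h : ¬ JEP (Free F)) :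
    ∃ g1 g2, CertN F k g1 g2 := by
  unfold JEP at h
  push Not at h
  obtain ⟨G, hG, H, hH, hno⟩ := h
  obtain ⟨g1, rfl⟩ := exists_code G
  obtain ⟨g2, rfl⟩ := exists_code H
  exact ⟨g1, g2, hG, hH, fun n _ D _ w _ hw => hno _ hw.1 hw.2.1 hw.2.2⟩

/-- the certificate for lettericity at most `k` -/
def CertK (F : List (ℕ × List (ℕ × ℕ))) (k : ℕ) : Prop :=
  ∀ n < Nb (2 * k + 1) k 1, ∀ D' ∈ rels (2 * k + 1), ∀ w ∈ tuples (List.range (2 * k + 1)) n,
    WG D' w ∈ Free F → ∃ D ∈ rels k, InC k D [(1, List.range k)] (LW D' w)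

theorem inC_iff_rep {k : ℕ} {D : List (ℕ × ℕ)} {V : Type} {G : SimpleGraph V} :
    InC k D [(1, List.range k)] G ↔ ∃ c σ : V → ℕ, Rep k D G c σ := by
  constructor
  · rintro ⟨c, β, σ, h⟩
    exact ⟨c, σ, h.toRep⟩
  · rintro ⟨c, σ, h⟩
    refine ⟨c, fun _ => 0, σ, h, fun v => ?_, fun u v _ _ => ?_, fun u v huv => ?_⟩
    · simpa [al] using h.lt v
    · simp [st]
    · exact absurd huv (lt_irrefl _)

theorem certK_complete {F : List (ℕ × List (ℕ × ℕ))} {k : ℕ}
    (hk : ∀ G ∈ Free F, LetterGraph k G) : CertK F k := by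
  intro n _ D' _ w _ hw
  obtain ⟨D, hD, c, σ, hr⟩ := letterGraph_iff.1 (hk _ hw)
  exact ⟨D, hD, inC_iff_rep.2 ⟨c, σ, hr⟩⟩

/-- adding a vertex at the first position -/
theorem exists_add_vertex {k n : ℕ} {D : List (ℕ × ℕ)} {G : SimpleGraph (Fin (n + 1))}
    {c σ : Fin n → ℕ} (h : Rep k D (G.comap Fin.castSucc) c σ) :
    LetterGraph (2 * k + 1) ⟨n + 1, G⟩ := by
  classical
  rw [letterGraph_iff]
  obtain ⟨D', hD', hR⟩ := exists_rel (2 * k + 1) fun x y =>
    (x = 2 * k ∧ y % 2 = 1) ∨ (x < 2 * k ∧ (x / 2, y / 2) ∈ D)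
  set g : Fin n → ℕ := fun i => 2 * c i + if G.Adj (Fin.last n) (Fin.castSucc i) then 1 else 0
    with hg
  have hg1 : ∀ i, g i < 2 * k := by
    intro i
    have := h.lt i
    simp only [hg]
    split_ifs <;> omega
  have hg2 : ∀ i, g i / 2 = c i := by
    intro i
    simp only [hg]
    split_ifs <;> omega
  have hg3 : ∀ i, g i % 2 = 1 ↔ G.Adj (Fin.last n) (Fin.castSucc i) := by
    intro i
    simp only [hg]
    split_ifs with hi
    · simp only [hi, iff_true]
      omega
    · simp only [hi, iff_false]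
      omega
  refine ⟨D', hD', Fin.lastCases (2 * k) g, Fin.lastCases 0 (fun i => σ i + 1), ?_, ?_, ?_⟩
  · intro u v
    induction u using Fin.lastCases with
    | last =>
      induction v using Fin.lastCases with
      | last => simp
      | cast j => simp
    | cast i =>
      induction v using Fin.lastCases with
      | last => simp
      | cast j =>
        simp only [Fin.lastCases_castSucc, Nat.add_right_cancel_iff]
        intro hij
        rw [h.inj hij]
  · intro v
    induction v using Fin.lastCases with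
    | last => simp
    | cast j =>
      rw [Fin.lastCases_castSucc]
      have := hg1 j
      omega
  · intro u v
    induction u using Fin.lastCases with
    | last =>
      induction v using Fin.lastCases with
      | last => simp
      | cast j =>
        simp only [Fin.lastCases_castSucc, Fin.lastCases_last]
        intro _
        rw [hR _ (by omega) _ (by have := hg1 j; omega), ← hg3]
        constructor
        · intro hh
          exact Or.inl ⟨rfl, hh⟩
        · rintro (hh | hh)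
          · exact hh.2
          · omega
    | cast i =>
      induction v using Fin.lastCases with
      | last => simp
      | cast j =>
        simp only [Fin.lastCases_castSucc]
        intro hij
        rw [hR _ (by have := hg1 i; omega) _ (by have := hg1 j; omega), hg2, hg2]
        have := h.adj i j (by omega)
        rw [SimpleGraph.comap_adj] at this
        rw [this]
        have hi := hg1 i
        constructor
        · intro hh
          exact Or.inr ⟨hi, hh⟩
        · rintro (hh | hh)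
          · omega
          · exact hh.2

theorem certK_sound {F : List (ℕ × List (ℕ × ℕ))} {k : ℕ} (h : CertK F k) :
    ∀ G ∈ Free F, LetterGraph k G := by
  rintro ⟨n, G⟩ hG
  induction n with
  | zero =>
    refine ⟨fun _ _ => True, Fin.elim0, 1, fun i => i.elim0⟩
  | succ n ih =>
    have hsub : Emb ⟨n, G.comap Fin.castSucc⟩ ⟨n + 1, G⟩ :=
      ⟨SimpleGraph.Embedding.comap ⟨Fin.castSucc, Fin.castSucc_injective n⟩ G⟩
    obtain ⟨D, hD, c, σ, hr⟩ := letterGraph_iff.1
      (ih (G.comap Fin.castSucc) (free_hereditary F _ _ hsub hG))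
    obtain ⟨D', hD', w, hw, -, he1, he2⟩ := exists_rep_word (exists_add_vertex hr)
    obtain ⟨w', hs, hlen, hp⟩ := exists_pump (2 * k + 1) k 1 w hw
    obtain ⟨D'', hD'', hin⟩ := h w'.length hlen D' hD' w' (mem_tuples.2 ⟨rfl, fun x hx =>
      List.mem_range.2 (hw x (hs.subset hx))⟩)
      (free_hereditary F _ _ ((emb_sublist D' hs).trans he2) hG)
    have h1 := hp D' D'' _ rfl hin
    obtain ⟨f⟩ := he1
    obtain ⟨c', σ', hr'⟩ := inC_iff_rep.1 (InC.of_emb f h1)
    exact letterGraph_iff.2 ⟨D'', hD'', c', σ', hr'⟩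

end Pool.Agent.H12Letter
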