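import Mathlib

/-!
# Atomicity of hereditary graph classes of bounded lettericity: definitions
-/

namespace Pool.Agent.H12Letter

/-- a finite simple graph with vertices `0, ..., n-1` -/
abbrev FG : Type := Σ n : ℕ, SimpleGraph (Fin n)

/-- `G` is an induced subgraph of `H` (up to isomorphism) -/
def Emb (G H : FG) : Prop := Nonempty (G.2 ↪g H.2)

/-- hereditary: closed under isomorphism and induced subgraphs -/
def Hereditary (X : Set FG) : Prop := ∀ G H : FG, Emb G H → H ∈ X → G ∈ X

/-- `X` is not the union of two hereditary classes both different from `X` -/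
def Atomic (X : Set FG) : Prop :=
  ∀ Y Z : Set FG, Hereditary Y → Hereditary Z → X = Y ∪ Z → Y = X ∨ Z = X

/-- joint embedding property -/
def JEP (X : Set FG) : Prop := ∀ G ∈ X, ∀ H ∈ X, ∃ K ∈ X, Emb G K ∧ Emb H K

/-- the code `(n, L)` stands for the graph with vertices `0, ..., n-1` in which `i ≠ j` are
adjacent iff `(i, j)` or `(j, i)` is a member of the list `L` -/
def decodeG (c : ℕ × List (ℕ × ℕ)) : FG :=
  ⟨c.1, SimpleGraph.fromRel fun i j => ((i : ℕ), (j : ℕ)) ∈ c.2⟩

/-- the class of all graphs without induced subgraph in the finite list `F` -/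
def Free (F : List (ℕ × List (ℕ × ℕ))) : Set FG := {G | ∀ f ∈ F, ¬ Emb (decodeG f) G}

/-- `G` is a `k`-letter graph: there are a set `D` of pairs of letters (the decoder), a word
`w` of letters and a bijection `σ` from the positions of the word to the vertices such
that for positions `i < j` the vertices `σ i` and `σ j` are adjacent iff `(w i, w j)`
belongs to `D` -/
def LetterGraph (k : ℕ) (G : FG) : Prop :=
  ∃ (D : Fin k → Fin k → Prop) (w : Fin G.1 → Fin k) (σ : Equiv.Perm (Fin G.1)),
    ∀ i j, i < j → (G.2.Adj (σ i) (σ j) ↔ D (w i) (w j))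

/-- bounded lettericity -/
def BoundedLettericity (X : Set FG) : Prop := ∃ k, ∀ G ∈ X, LetterGraph k G

theorem Emb.refl (G : FG) : Emb G G := ⟨SimpleGraph.Embedding.refl⟩

theorem Emb.trans {G H K : FG} (h : Emb G H) (h' : Emb H K) : Emb G K := by
  obtain ⟨f⟩ := h
  obtain ⟨g⟩ := h'
  exact ⟨f.trans g⟩

theorem free_hereditary (F : List (ℕ × List (ℕ × ℕ))) : Hereditary (Free F) := by
  intro G H hGH hH f hf h
  exact hH f hf (h.trans hGH)

theorem atomic_iff {X : Set FG} (hX : Hereditary X) : Atomic X ↔ JEP X := by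
  constructor
  · intro h G hG H hH
    by_contra hno
    push Not at hno
    have := h {K | K ∈ X ∧ ¬ Emb G K} {K | K ∈ X ∧ ¬ Emb H K}
      (fun A B hAB hB => ⟨hX A B hAB hB.1, fun hc => hB.2 (hc.trans hAB)⟩)
      (fun A B hAB hB => ⟨hX A B hAB hB.1, fun hc => hB.2 (hc.trans hAB)⟩) (by
        ext K
        constructor
        · intro hK
          by_cases hc : Emb G K
          · exact Or.inr ⟨hK, hno K hK hc⟩
          · exact Or.inl ⟨hK, hc⟩
        · rintro (hK | hK)
          · exact hK.1
          · exact hK.1)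
    rcases this with h1 | h1
    · rw [← h1] at hG
      exact hG.2 (Emb.refl G)
    · rw [← h1] at hH
      exact hH.2 (Emb.refl H)
  · intro h Y Z hY hZ hXYZ
    by_contra hno
    push Not at hno
    have hYX : Y ⊆ X := by rw [hXYZ]; exact Set.subset_union_left
    have hZX : Z ⊆ X := by rw [hXYZ]; exact Set.subset_union_right
    obtain ⟨G, hG, hG'⟩ : ∃ G ∈ X, G ∉ Y := by
      by_contra hc
      push Not at hc
      exact hno.1 (Set.Subset.antisymm hYX hc)
    obtain ⟨H, hH, hH'⟩ : ∃ G ∈ X, G ∉ Z := by
      by_contra hc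
      push Not at hc
      exact hno.2 (Set.Subset.antisymm hZX hc)
    obtain ⟨K, hK, h1, h2⟩ := h G hG H hH
    rw [hXYZ] at hK
    rcases hK with hK | hK
    · exact hG' (hY _ _ h1 hK)
    · exact hH' (hZ _ _ h2 hK)

end Pool.Agent.H12Letter
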