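import Mathlib

/-!
# Search for a certificate
-/

namespace Pool.Agent.H12Letter

open Primrec

theorem search {α β : Type} [Primcodable α] [Denumerable β] {QA QN : α → β → Prop}
    (hA : PrimrecPred fun p : α × β => QA p.1 p.2)
    (hN : PrimrecPred fun p : α × β => QN p.1 p.2) :
    ∃ A : α →. Bool, Partrec A ∧ (∀ a, (A a).Dom ↔ ∃ x, QA a x ∨ QN a x) ∧
      ∀ a, ∀ b ∈ A a, ∃ x, (QA a x ∨ QN a x) ∧ (b = true ↔ QA a x) := by
  classical
  have h1 : PrimrecPred fun p : α × ℕ => QA p.1 (Denumerable.ofNat β p.2) ∨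
      QN p.1 (Denumerable.ofNat β p.2) := by
    have hp : Primrec fun p : α × ℕ => (p.1, Denumerable.ofNat β p.2) :=
      Primrec.pair Primrec.fst ((Primrec.ofNat β).comp Primrec.snd)
    exact PrimrecPred.or (PrimrecPred.comp hA hp) (PrimrecPred.comp hN hp)
  have h2 : PrimrecPred fun p : α × ℕ => QA p.1 (Denumerable.ofNat β p.2) := by
    have hp : Primrec fun p : α × ℕ => (p.1, Denumerable.ofNat β p.2) :=
      Primrec.pair Primrec.fst ((Primrec.ofNat β).comp Primrec.snd)
    exact PrimrecPred.comp hA hp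
  have c1 : Computable₂ fun (a : α) (n : ℕ) => decide (QA a (Denumerable.ofNat β n) ∨
      QN a (Denumerable.ofNat β n)) := (PrimrecPred.decide h1).to_comp
  have c2 : Computable₂ fun (a : α) (n : ℕ) => decide (QA a (Denumerable.ofNat β n)) :=
    (PrimrecPred.decide h2).to_comp
  refine ⟨fun a => (Nat.rfind fun n => Part.some (decide (QA a (Denumerable.ofNat β n) ∨
      QN a (Denumerable.ofNat β n)))).map fun n => decide (QA a (Denumerable.ofNat β n)),
    (Partrec.rfind c1.partrec₂).map c2, fun a => ?_, fun a b hb => ?_⟩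
  · constructor
    · intro h
      obtain ⟨n, hn, -⟩ := Nat.rfind_dom.1 h
      have hn' := Part.mem_some_iff.1 hn
      exact ⟨Denumerable.ofNat β n, of_decide_eq_true hn'.symm⟩
    · rintro ⟨x, hx⟩
      refine Nat.rfind_dom.2 ⟨Encodable.encode x, ?_, fun _ => trivial⟩
      refine Part.mem_some_iff.2 ?_
      rw [Denumerable.ofNat_encode]
      exact (decide_eq_true hx).symm
  · rw [Part.mem_map_iff] at hb
    obtain ⟨n, hn, rfl⟩ := hb
    have := Part.mem_some_iff.1 (Nat.rfind_spec hn)
    exact ⟨Denumerable.ofNat β n, of_decide_eq_true this.symm, decide_eq_true_iff⟩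

end Pool.Agent.H12Letter
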