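import Pool.Agent.H12Letter.Prim
import Pool.Agent.H12Letter.Search

/-!
# The algorithm
-/

namespace Pool.Agent.H12Letter

open Primrec

/-- certificates -/
abbrev Ct : Type := ℕ × ((List (ℕ × ℕ) × Ex) × (Code × Code))

def QA (F : List Code) (x : Ct) : Prop :=
  (∃ f ∈ F, f.1 = 0) ∨ (CertK F x.1 ∧ CertA F x.1 x.2.1.1 x.2.1.2)

def QN (F : List Code) (x : Ct) : Prop := CertK F x.1 ∧ CertN F x.1 x.2.2.1 x.2.2.2

theorem qa_primrec : PrimrecPred fun p : List Code × Ct => QA p.1 p.2 := by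
  unfold QA
  have hK : PrimrecPred fun p : List Code × Ct => CertK p.1 p.2.1 :=
    PrimrecPred.comp certK_primrec (Primrec.pair Primrec.fst (Primrec.fst.comp Primrec.snd))
  have hA : PrimrecPred fun p : List Code × Ct => CertA p.1 p.2.1 p.2.2.1.1 p.2.2.1.2 :=
    PrimrecPred.comp certA_primrec (Primrec.pair (Primrec.pair Primrec.fst
      (Primrec.fst.comp Primrec.snd)) (Primrec.fst.comp (Primrec.snd.comp Primrec.snd)))
  refine PrimrecPred.or ?_ (hK.and hA)
  exact pEx Primrec.fst (pEq (Primrec.fst.comp Primrec.snd) (Primrec.const 0))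

theorem qn_primrec : PrimrecPred fun p : List Code × Ct => QN p.1 p.2 := by
  unfold QN
  have hK : PrimrecPred fun p : List Code × Ct => CertK p.1 p.2.1 :=
    PrimrecPred.comp certK_primrec (Primrec.pair Primrec.fst (Primrec.fst.comp Primrec.snd))
  have hA : PrimrecPred fun p : List Code × Ct => CertN p.1 p.2.1 p.2.2.2.1 p.2.2.2.2 :=
    PrimrecPred.comp certN_primrec (Primrec.pair (Primrec.pair Primrec.fst
      (Primrec.fst.comp Primrec.snd)) (Primrec.snd.comp (Primrec.snd.comp Primrec.snd)))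
  exact hK.and hA

theorem free_empty {F : List Code} (h : ∃ f ∈ F, f.1 = 0) : Free F = ∅ := by
  obtain ⟨f, hf, h0⟩ := h
  ext G
  simp only [Set.mem_empty_iff_false, iff_false]
  intro hG
  apply hG f hf
  rcases f with ⟨n, L⟩
  simp only at h0
  subst h0
  exact ⟨⟨⟨Fin.elim0, fun i => i.elim0⟩, fun {i} => i.elim0⟩⟩

theorem free_nonempty {F : List Code} (h : ¬ ∃ f ∈ F, f.1 = 0) : (Free F).Nonempty := by
  refine ⟨⟨0, ⊥⟩, fun f hf he => h ⟨f, hf, ?_⟩⟩
  obtain ⟨φ⟩ := he
  by_contra hne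
  exact (φ ⟨0, Nat.pos_of_ne_zero hne⟩).elim0

/-- Atomicity of hereditary classes of bounded lettericity is decidable -/
theorem main : ∃ A : List (ℕ × List (ℕ × ℕ)) →. Bool, Partrec A ∧
    (∀ F, (A F).Dom ↔ BoundedLettericity (Free F)) ∧
      ∀ F, ∀ b ∈ A F, (b = true ↔ Atomic (Free F)) := by
  obtain ⟨A, h1, h2, h3⟩ := search qa_primrec qn_primrec
  refine ⟨A, h1, fun F => (h2 F).trans ⟨?_, ?_⟩, fun F b hb => ?_⟩
  · rintro ⟨x, (h | h) | h⟩
    · rw [free_empty h]
      exact ⟨0, fun G hG => absurd hG (Set.notMem_empty G)⟩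
    · exact ⟨x.1, certK_sound h.1⟩
    · exact ⟨x.1, certK_sound h.1⟩
  · rintro ⟨k, hk⟩
    by_cases he : ∃ f ∈ F, f.1 = 0
    · exact ⟨(0, (([], []), ((0, []), (0, [])))), Or.inl (Or.inl he)⟩
    · by_cases hJ : JEP (Free F)
      · obtain ⟨D, e, h⟩ := certA_complete hk hJ (free_nonempty he)
        exact ⟨(k, ((D, e), ((0, []), (0, [])))), Or.inl (Or.inr ⟨certK_complete hk, h⟩)⟩
      · obtain ⟨g1, g2, h⟩ := certN_complete k hJ
        exact ⟨(k, (([], []), (g1, g2))), Or.inr ⟨certK_complete hk, h⟩⟩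
  · obtain ⟨x, hx, hiff⟩ := h3 F b hb
    rw [hiff, atomic_iff (free_hereditary F)]
    constructor
    · rintro (h | h)
      · rw [free_empty h]
        intro G hG
        exact absurd hG (Set.notMem_empty G)
      · exact certA_sound (certK_sound h.1) h.2
    · intro hJ
      rcases hx with hx | hx
      · exact hx
      · exact absurd hJ (certN_sound (certK_sound hx.1) hx.2)

end Pool.Agent.H12Letter
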