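import Pool.Agent.H12Letter.Decide

/-!
# The checks are primitive recursive
-/

namespace Pool.Agent.H12Letter

open Primrec

section Tools

variable {α β γ : Type} [Primcodable α] [Primcodable β] [Primcodable γ]

theorem pEx {L : α → List β} {p : α → β → Prop} (hL : Primrec L)
    (hp : PrimrecPred fun x : α × β => p x.1 x.2) : PrimrecPred fun a => ∃ b ∈ L a, p a b := by
  have h : PrimrecRel fun (b : β) (a : α) => p a b :=
    (PrimrecPred.comp hp (Primrec.pair Primrec.snd Primrec.fst) :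
      PrimrecPred fun x : β × α => p x.2 x.1)
  exact PrimrecRel.comp h.exists_mem_list hL Primrec.id

theorem pAll {L : α → List β} {p : α → β → Prop} (hL : Primrec L)
    (hp : PrimrecPred fun x : α × β => p x.1 x.2) : PrimrecPred fun a => ∀ b ∈ L a, p a b := by
  have h : PrimrecRel fun (b : β) (a : α) => p a b :=
    (PrimrecPred.comp hp (Primrec.pair Primrec.snd Primrec.fst) :
      PrimrecPred fun x : β × α => p x.2 x.1)
  exact PrimrecRel.comp h.forall_mem_list hL Primrec.id

theorem pAllLt {n : α → ℕ} {p : α → ℕ → Prop} (hn : Primrec n)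
    (hp : PrimrecPred fun x : α × ℕ => p x.1 x.2) : PrimrecPred fun a => ∀ i < n a, p a i :=
  (pAll (Primrec.list_range.comp hn) hp).of_eq fun a => by simp

theorem pImp {p q : α → Prop} (hp : PrimrecPred p) (hq : PrimrecPred q) :
    PrimrecPred fun a => p a → q a :=
  (hp.not.or hq).of_eq fun a => by tauto

theorem pIff {p q : α → Prop} (hp : PrimrecPred p) (hq : PrimrecPred q) :
    PrimrecPred fun a => p a ↔ q a :=
  ((pImp hp hq).and (pImp hq hp)).of_eq fun a => by tauto

theorem pMem {f : α → β} {g : α → List β} (hf : Primrec f) (hg : Primrec g) :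
    PrimrecPred fun a => f a ∈ g a :=
  (pEx (p := fun a b => b = f a) hg
    (PrimrecRel.comp Primrec.eq Primrec.snd (hf.comp Primrec.fst))).of_eq fun a => by simp

theorem pLt {f g : α → ℕ} (hf : Primrec f) (hg : Primrec g) : PrimrecPred fun a => f a < g a :=
  PrimrecRel.comp Primrec.nat_lt hf hg

theorem pEq {f g : α → β} (hf : Primrec f) (hg : Primrec g) : PrimrecPred fun a => f a = g a :=
  PrimrecRel.comp Primrec.eq hf hg

theorem pget {l : α → List ℕ} {i : α → ℕ} (hl : Primrec l) (hi : Primrec i) :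
    Primrec fun a => (l a).getD (i a) 0 := (Primrec.list_getD 0).comp hl hi

theorem tuples_primrec {S : α → List β} {n : α → ℕ} (hS : Primrec S) (hn : Primrec n) :
    Primrec fun a => tuples (S a) (n a) := by
  have h : Primrec fun a => (Nat.rec [[]] (fun _ IH => IH.flatMap fun l =>
      (S a).map fun x => x :: l) (n a) : List (List β)) := by
    refine Primrec.nat_rec' (h := fun a (p : ℕ × List (List β)) =>
      p.2.flatMap fun l => (S a).map fun x => x :: l)
      hn (Primrec.const _) ?_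
    refine Primrec.list_flatMap (Primrec.snd.comp Primrec.snd) ?_
    refine Primrec.list_map (hS.comp (Primrec.fst.comp Primrec.fst)) ?_
    exact Primrec.list_cons.comp Primrec.snd (Primrec.snd.comp Primrec.fst)
  refine h.of_eq fun a => ?_
  induction n a with
  | zero => rfl
  | succ m ih => simp only [tuples]; rw [← ih]

theorem pairs_primrec {n : α → ℕ} (hn : Primrec n) : Primrec fun a => pairs (n a) := by
  refine Primrec.list_flatMap (Primrec.list_range.comp hn) ?_
  refine Primrec.list_map (Primrec.list_range.comp (hn.comp Primrec.fst)) ?_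
  exact Primrec.pair (Primrec.snd.comp Primrec.fst) Primrec.snd

theorem rels_primrec {n : α → ℕ} (hn : Primrec n) : Primrec fun a => rels (n a) := by
  refine Primrec.list_flatMap (Primrec.list_range.comp
    (Primrec.succ.comp (Primrec.nat_mul.comp hn hn))) ?_
  exact tuples_primrec (pairs_primrec (hn.comp Primrec.fst)) Primrec.snd

theorem pow_primrec : Primrec₂ ((· ^ ·) : ℕ → ℕ → ℕ) :=
  Primrec₂.unpaired'.1 Nat.Primrec.pow

theorem nb_primrec {K k b : α → ℕ} (hK : Primrec K) (hk : Primrec k) (hb : Primrec b) :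
    Primrec fun a => Nb (K a) (k a) (b a) := by
  have h1 : Primrec fun a => K a * (k a * b a) :=
    Primrec.nat_mul.comp hK (Primrec.nat_mul.comp hk hb)
  exact pow_primrec.comp (Primrec.const 2) (pow_primrec.comp (Primrec.const 2)
    (pow_primrec.comp (Primrec.succ.comp h1) (Primrec.nat_mul.comp (Primrec.const 2) h1)))

end Tools

/-- codes of graphs -/
abbrev Code : Type := ℕ × List (ℕ × ℕ)

/-- expressions -/
abbrev Ex : Type := List (ℕ × List ℕ)

def adjC (g : Code) (i j : ℕ) : Prop := i ≠ j ∧ ((i, j) ∈ g.2 ∨ (j, i) ∈ g.2)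

theorem adjC_iff (g : Code) (i j : Fin g.1) : adjC g i j ↔ (decodeG g).2.Adj i j := by
  unfold decodeG adjC
  rw [SimpleGraph.fromRel_adj, Ne, Ne, Fin.val_inj]

def embC (f g : Code) : Prop :=
  ∃ φ ∈ tuples (List.range g.1) f.1, ∀ i < f.1, ∀ j < f.1,
    (φ.getD i 0 = φ.getD j 0 → i = j) ∧ (adjC f i j ↔ adjC g (φ.getD i 0) (φ.getD j 0))

def inCC (k : ℕ) (D : List (ℕ × ℕ)) (e : Ex) (g : Code) : Prop :=
  ∃ c ∈ tuples (List.range k) g.1, ∃ β ∈ tuples (List.range e.length) g.1,
    ∃ σ ∈ tuples (List.range g.1) g.1, ∀ i < g.1, al e (β.getD i 0) (c.getD i 0) ∧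
      ∀ j < g.1, (σ.getD i 0 = σ.getD j 0 → i = j) ∧
        (¬ i = j → β.getD i 0 = β.getD j 0 → st e (β.getD i 0)) ∧
        (β.getD i 0 < β.getD j 0 → σ.getD i 0 < σ.getD j 0) ∧
        (σ.getD i 0 < σ.getD j 0 → (adjC g i j ↔ (c.getD i 0, c.getD j 0) ∈ D))

theorem getD_ofFn {n : ℕ} (f : Fin n → ℕ) (i : Fin n) : (List.ofFn f).getD i 0 = f i := by
  rw [List.getD_eq_getElem _ _ (by rw [List.length_ofFn]; exact i.2), List.getElem_ofFn]

theorem ofFn_mem_tuples {n m : ℕ} (f : Fin n → ℕ) (h : ∀ i, f i < m) :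
    List.ofFn f ∈ tuples (List.range m) n := by
  rw [mem_tuples]
  refine ⟨List.length_ofFn, fun x hx => ?_⟩
  obtain ⟨i, rfl⟩ := (List.mem_ofFn' _ _).1 hx
  exact List.mem_range.2 (h i)

theorem getD_lt {n m : ℕ} {l : List ℕ} (h : l ∈ tuples (List.range m) n) (i : Fin n) :
    l.getD i 0 < m := by
  obtain ⟨h1, h2⟩ := mem_tuples.1 h
  rw [List.getD_eq_getElem _ _ (by rw [h1]; exact i.2)]
  exact List.mem_range.1 (h2 _ (List.getElem_mem _))

theorem embC_iff (f g : Code) : embC f g ↔ Emb (decodeG f) (decodeG g) := by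
  constructor
  · rintro ⟨φ, hφ, h⟩
    refine ⟨⟨⟨fun i => ⟨φ.getD i 0, getD_lt hφ i⟩, fun i j hij => ?_⟩, fun {i j} => ?_⟩⟩
    · exact Fin.ext ((h i i.2 j j.2).1 (Fin.mk.inj_iff.1 hij))
    · exact (adjC_iff g ⟨_, getD_lt hφ i⟩ ⟨_, getD_lt hφ j⟩).symm.trans
        ((h i i.2 j j.2).2.symm.trans (adjC_iff f i j))
  · rintro ⟨F⟩
    refine ⟨List.ofFn fun i : Fin f.1 => ((F i : Fin g.1) : ℕ), ofFn_mem_tuples _ fun i =>
      Fin.is_lt _, fun i hi j hj => ?_⟩
    have h1 := getD_ofFn (fun i : Fin f.1 => ((F i : Fin g.1) : ℕ)) ⟨i, hi⟩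
    have h2 := getD_ofFn (fun i : Fin f.1 => ((F i : Fin g.1) : ℕ)) ⟨j, hj⟩
    simp only at h1 h2
    rw [h1, h2]
    constructor
    · intro h
      exact Fin.mk.inj_iff.1 (F.injective (Fin.ext h))
    · exact (adjC_iff f ⟨i, hi⟩ ⟨j, hj⟩).trans
        (F.map_adj_iff.symm.trans (adjC_iff g _ _).symm)

theorem inCC_iff (k : ℕ) (D : List (ℕ × ℕ)) (e : Ex) (g : Code) :
    inCC k D e g ↔ InC k D e (decodeG g).2 := by
  constructor
  · rintro ⟨c, hc, β, hβ, σ, hσ, h⟩
    refine ⟨fun i : Fin g.1 => c.getD i 0, fun i : Fin g.1 => β.getD i 0,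
      fun i : Fin g.1 => σ.getD i 0, ⟨?_, ?_, ?_⟩, ?_, ?_, ?_⟩
    · intro i j hij
      exact Fin.ext (((h i i.2).2 j j.2).1 hij)
    · intro i
      exact getD_lt hc i
    · intro i j hij
      exact (adjC_iff g i j).symm.trans (((h i i.2).2 j j.2).2.2.2 hij)
    · intro i
      exact (h i i.2).1
    · intro i j hij hb
      exact ((h i i.2).2 j j.2).2.1 (fun h => hij (Fin.ext h)) hb
    · intro i j hb
      exact ((h i i.2).2 j j.2).2.2.1 hb
  · rintro ⟨c, β, σ, h⟩
    have hinj : ∀ u v : Fin g.1, rk σ u < rk σ v ↔ σ u < σ v := by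
      intro u v
      constructor
      · intro hlt
        by_contra hno
        rcases lt_or_eq_of_le (not_lt.1 hno) with h1 | h1
        · have := rk_mono σ h1
          omega
        · have := h.inj h1
          subst this
          exact lt_irrefl _ hlt
      · exact rk_mono σ
    refine ⟨List.ofFn c, ofFn_mem_tuples _ h.lt, List.ofFn β,
      ofFn_mem_tuples _ fun i => (h.hal i).lt, List.ofFn fun i : Fin g.1 => rk σ i,
      ofFn_mem_tuples _ fun i => lt_of_lt_of_eq (rk_lt σ i) (Fintype.card_fin _), ?_⟩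
    intro i hi
    have c1 := getD_ofFn c ⟨i, hi⟩
    have b1 := getD_ofFn β ⟨i, hi⟩
    have s1 := getD_ofFn (fun i : Fin g.1 => rk σ i) ⟨i, hi⟩
    simp only at c1 b1 s1
    rw [c1, b1, s1]
    refine ⟨h.hal _, fun j hj => ?_⟩
    have c2 := getD_ofFn c ⟨j, hj⟩
    have b2 := getD_ofFn β ⟨j, hj⟩
    have s2 := getD_ofFn (fun i : Fin g.1 => rk σ i) ⟨j, hj⟩
    simp only at c2 b2 s2
    rw [c2, b2, s2, hinj]
    refine ⟨?_, ?_, ?_, ?_⟩
    · intro hs
      by_contra hne
      have hne' : (⟨i, hi⟩ : Fin g.1) ≠ ⟨j, hj⟩ := fun h => hne (Fin.mk.inj_iff.1 h)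
      rcases lt_trichotomy (σ ⟨i, hi⟩) (σ ⟨j, hj⟩) with h1 | h1 | h1
      · exact absurd hs (ne_of_lt (rk_mono σ h1))
      · exact hne' (h.inj h1)
      · exact absurd hs (ne_of_gt (rk_mono σ h1))
    · intro hne hb
      exact h.hst _ _ (fun h => hne (Fin.mk.inj_iff.1 h)) hb
    · intro hb
      exact h.mono _ _ hb
    · intro hs
      exact (adjC_iff g ⟨i, hi⟩ ⟨j, hj⟩).trans (h.adj _ _ hs)

/-- code of the graph of a word -/
def wcode (D : List (ℕ × ℕ)) (w : List ℕ) : Code :=
  (w.length, (pairs w.length).filter fun p => p.1 < p.2 ∧ (w.getD p.1 0, w.getD p.2 0) ∈ D)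

theorem decode_wcode (D : List (ℕ × ℕ)) (w : List ℕ) : decodeG (wcode D w) = WG D w := by
  unfold decodeG wcode WG
  simp only
  congr 1
  ext i j
  rw [SimpleGraph.fromRel_adj]
  simp only [List.mem_filter, mem_pairs, decide_eq_true_iff, LW, LG]
  have h1 : ∀ i : Fin w.length, w.getD i 0 = w[i] := fun i => List.getD_eq_getElem _ _ i.2
  rw [h1, h1]
  constructor
  · rintro ⟨-, h | h⟩
    · exact Or.inl h.2
    · exact Or.inr h.2
  · rintro (h | h)
    · exact ⟨fun he => absurd h.1 (by rw [he]; exact lt_irrefl _),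
        Or.inl ⟨⟨i.2, j.2⟩, h⟩⟩
    · exact ⟨fun he => absurd h.1 (by rw [he]; exact lt_irrefl _),
        Or.inr ⟨⟨j.2, i.2⟩, h⟩⟩

theorem inCC_wcode (k : ℕ) (D : List (ℕ × ℕ)) (e : Ex) (D' : List (ℕ × ℕ)) (w : List ℕ) :
    inCC k D e (wcode D' w) ↔ InC k D e (LW D' w) := by
  rw [inCC_iff]
  have h : decodeG (wcode D' w) ∈ Cls k D e ↔ WG D' w ∈ Cls k D e := by rw [decode_wcode]
  exact h

section Checks

variable {α : Type} [Primcodable α]

theorem adjC_primrec {g : α → Code} {i j : α → ℕ} (hg : Primrec g) (hi : Primrec i)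
    (hj : Primrec j) : PrimrecPred fun a => adjC (g a) (i a) (j a) := by
  unfold adjC
  have h2 : Primrec fun a => (g a).2 := Primrec.snd.comp hg
  exact (pEq hi hj).not.and ((pMem (Primrec.pair hi hj) h2).or (pMem (Primrec.pair hj hi) h2))

theorem embC_primrec {f g : α → Code} (hf : Primrec f) (hg : Primrec g) :
    PrimrecPred fun a => embC (f a) (g a) := by
  unfold embC
  refine pEx (tuples_primrec (Primrec.list_range.comp (Primrec.fst.comp hg))
    (Primrec.fst.comp hf)) ?_
  refine pAllLt (Primrec.fst.comp (hf.comp Primrec.fst)) ?_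
  refine pAllLt (Primrec.fst.comp (hf.comp (Primrec.fst.comp Primrec.fst))) ?_
  have hi : Primrec fun x : ((α × List ℕ) × ℕ) × ℕ => x.1.2 := Primrec.snd.comp Primrec.fst
  have hj : Primrec fun x : ((α × List ℕ) × ℕ) × ℕ => x.2 := Primrec.snd
  have hφ : Primrec fun x : ((α × List ℕ) × ℕ) × ℕ => x.1.1.2 :=
    Primrec.snd.comp (Primrec.fst.comp Primrec.fst)
  have hf' : Primrec fun x : ((α × List ℕ) × ℕ) × ℕ => f x.1.1.1 :=
    hf.comp (Primrec.fst.comp (Primrec.fst.comp Primrec.fst))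
  have hg' : Primrec fun x : ((α × List ℕ) × ℕ) × ℕ => g x.1.1.1 :=
    hg.comp (Primrec.fst.comp (Primrec.fst.comp Primrec.fst))
  exact (pImp (pEq (pget hφ hi) (pget hφ hj)) (pEq hi hj)).and
    (pIff (adjC_primrec hf' hi hj) (adjC_primrec hg' (pget hφ hi) (pget hφ hj)))

theorem getDe_primrec {e : α → Ex} {j : α → ℕ} (he : Primrec e) (hj : Primrec j) :
    Primrec fun a => (e a).getD (j a) (0, []) := (Primrec.list_getD (0, [])).comp he hj

theorem al_primrec {e : α → Ex} {j x : α → ℕ} (he : Primrec e) (hj : Primrec j)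
    (hx : Primrec x) : PrimrecPred fun a => al (e a) (j a) (x a) :=
  pMem hx (Primrec.snd.comp (getDe_primrec he hj))

theorem st_primrec {e : α → Ex} {j : α → ℕ} (he : Primrec e) (hj : Primrec j) :
    PrimrecPred fun a => st (e a) (j a) :=
  (pEq (Primrec.fst.comp (getDe_primrec he hj)) (Primrec.const 0)).not

theorem inCC_primrec {k : α → ℕ} {D : α → List (ℕ × ℕ)} {e : α → Ex} {g : α → Code}
    (hk : Primrec k) (hD : Primrec D) (he : Primrec e) (hg : Primrec g) :
    PrimrecPred fun a => inCC (k a) (D a) (e a) (g a) := by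
  unfold inCC
  have hn : Primrec fun a => (g a).1 := Primrec.fst.comp hg
  refine pEx (tuples_primrec (Primrec.list_range.comp hk) hn) ?_
  refine pEx (tuples_primrec (Primrec.list_range.comp
    (Primrec.list_length.comp (he.comp Primrec.fst))) (hn.comp Primrec.fst)) ?_
  refine pEx (tuples_primrec (Primrec.list_range.comp (hn.comp (Primrec.fst.comp Primrec.fst)))
    (hn.comp (Primrec.fst.comp Primrec.fst))) ?_
  have p0 : Primrec fun x : ((((α × List ℕ) × List ℕ) × List ℕ)) => x.1.1.1 :=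
    Primrec.fst.comp (Primrec.fst.comp Primrec.fst)
  refine pAllLt (hn.comp p0) ?_
  refine PrimrecPred.and ?_ (pAllLt (hn.comp (p0.comp Primrec.fst)) ?_)
  · exact al_primrec (he.comp (p0.comp Primrec.fst))
      (pget (Primrec.snd.comp (Primrec.fst.comp Primrec.fst)) Primrec.snd)
      (pget (Primrec.snd.comp (Primrec.fst.comp (Primrec.fst.comp Primrec.fst))) Primrec.snd)
  · have hj : Primrec fun x : (((((α × List ℕ) × List ℕ) × List ℕ)) × ℕ) × ℕ => x.2 :=
      Primrec.snd
    have hi : Primrec fun x : (((((α × List ℕ) × List ℕ) × List ℕ)) × ℕ) × ℕ => x.1.2 :=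
      Primrec.snd.comp Primrec.fst
    have q : Primrec fun x : (((((α × List ℕ) × List ℕ) × List ℕ)) × ℕ) × ℕ => x.1.1 :=
      Primrec.fst.comp Primrec.fst
    have hσ : Primrec fun x : (((((α × List ℕ) × List ℕ) × List ℕ)) × ℕ) × ℕ => x.1.1.2 :=
      Primrec.snd.comp q
    have hβ : Primrec fun x : (((((α × List ℕ) × List ℕ) × List ℕ)) × ℕ) × ℕ => x.1.1.1.2 :=
      Primrec.snd.comp (Primrec.fst.comp q)
    have hc : Primrec fun x : (((((α × List ℕ) × List ℕ) × List ℕ)) × ℕ) × ℕ => x.1.1.1.1.2 :=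
      Primrec.snd.comp (Primrec.fst.comp (Primrec.fst.comp q))
    have ha : Primrec fun x : (((((α × List ℕ) × List ℕ) × List ℕ)) × ℕ) × ℕ => x.1.1.1.1.1 :=
      p0.comp q
    refine (pImp (pEq (pget hσ hi) (pget hσ hj)) (pEq hi hj)).and (PrimrecPred.and ?_
      (PrimrecPred.and ?_ ?_))
    · exact pImp (pEq hi hj).not (pImp (pEq (pget hβ hi) (pget hβ hj))
        (st_primrec (he.comp ha) (pget hβ hi)))
    · exact pImp (pLt (pget hβ hi) (pget hβ hj)) (pLt (pget hσ hi) (pget hσ hj))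
    · exact pImp (pLt (pget hσ hi) (pget hσ hj)) (pIff (adjC_primrec (hg.comp ha) hi hj)
        (pMem (Primrec.pair (pget hc hi) (pget hc hj)) (hD.comp ha)))

theorem wcode_primrec {D : α → List (ℕ × ℕ)} {w : α → List ℕ} (hD : Primrec D)
    (hw : Primrec w) : Primrec fun a => wcode (D a) (w a) := by
  have hR : PrimrecRel fun (p : ℕ × ℕ) (b : List (ℕ × ℕ) × List ℕ) =>
      p.1 < p.2 ∧ (b.2.getD p.1 0, b.2.getD p.2 0) ∈ b.1 := by
    have h1 : Primrec fun x : (ℕ × ℕ) × (List (ℕ × ℕ) × List ℕ) => x.1.1 :=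
      Primrec.fst.comp Primrec.fst
    have h2 : Primrec fun x : (ℕ × ℕ) × (List (ℕ × ℕ) × List ℕ) => x.1.2 :=
      Primrec.snd.comp Primrec.fst
    have h3 : Primrec fun x : (ℕ × ℕ) × (List (ℕ × ℕ) × List ℕ) => x.2.2 :=
      Primrec.snd.comp Primrec.snd
    have h4 : Primrec fun x : (ℕ × ℕ) × (List (ℕ × ℕ) × List ℕ) => x.2.1 :=
      Primrec.fst.comp Primrec.snd
    exact (pLt h1 h2).and (pMem (Primrec.pair (pget h3 h1) (pget h3 h2)) h4)
  exact Primrec.pair (Primrec.list_length.comp hw)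
    (hR.listFilter.comp (pairs_primrec (Primrec.list_length.comp hw)) (Primrec.pair hD hw))

/-- a code of a graph in `Free F` -/
def freeC (F : List Code) (g : Code) : Prop := ∀ f ∈ F, ¬ embC f g

theorem freeC_iff (F : List Code) (g : Code) : freeC F g ↔ decodeG g ∈ Free F := by
  unfold freeC Free
  simp only [Set.mem_ofPred_eq, embC_iff]

theorem freeC_primrec {F : α → List Code} {g : α → Code} (hF : Primrec F) (hg : Primrec g) :
    PrimrecPred fun a => freeC (F a) (g a) :=
  pAll hF (embC_primrec Primrec.snd (hg.comp Primrec.fst)).not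

theorem certK_primrec : PrimrecPred fun x : List Code × ℕ => CertK x.1 x.2 := by
  have h : PrimrecPred fun x : List Code × ℕ =>
      ∀ n < Nb (2 * x.2 + 1) x.2 1, ∀ D' ∈ rels (2 * x.2 + 1),
        ∀ w ∈ tuples (List.range (2 * x.2 + 1)) n, freeC x.1 (wcode D' w) →
          ∃ D ∈ rels x.2, inCC x.2 D [(1, List.range x.2)] (wcode D' w) := by
    have hk : Primrec fun x : List Code × ℕ => x.2 := Primrec.snd
    have hK : Primrec fun x : List Code × ℕ => 2 * x.2 + 1 :=
      Primrec.succ.comp (Primrec.nat_mul.comp (Primrec.const 2) hk)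
    refine pAllLt (nb_primrec hK hk (Primrec.const 1)) ?_
    refine pAll (rels_primrec (hK.comp Primrec.fst)) ?_
    refine pAll (tuples_primrec (Primrec.list_range.comp (hK.comp (Primrec.fst.comp Primrec.fst)))
      (Primrec.snd.comp Primrec.fst)) ?_
    have hw : Primrec fun x : (((List Code × ℕ) × ℕ) × List (ℕ × ℕ)) × List ℕ =>
        wcode x.1.2 x.2 := wcode_primrec (Primrec.snd.comp Primrec.fst) Primrec.snd
    have h0 : Primrec fun x : (((List Code × ℕ) × ℕ) × List (ℕ × ℕ)) × List ℕ => x.1.1.1 :=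
      Primrec.fst.comp (Primrec.fst.comp Primrec.fst)
    refine pImp (freeC_primrec (Primrec.fst.comp h0) hw) ?_
    refine pEx (rels_primrec (hk.comp h0)) ?_
    have h1 : Primrec fun x : ((((List Code × ℕ) × ℕ) × List (ℕ × ℕ)) × List ℕ) ×
        List (ℕ × ℕ) => x.1.1.1.1.2 := hk.comp (h0.comp Primrec.fst)
    refine inCC_primrec h1 Primrec.snd ?_ (hw.comp Primrec.fst)
    exact Primrec.list_cons.comp (Primrec.pair (Primrec.const 1) (Primrec.list_range.comp h1))
      (Primrec.const [])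
  refine h.of_eq fun x => ?_
  unfold CertK
  simp only [freeC_iff, inCC_wcode, decode_wcode]

theorem certA_primrec : PrimrecPred fun x : (List Code × ℕ) × (List (ℕ × ℕ) × Ex) =>
    CertA x.1.1 x.1.2 x.2.1 x.2.2 := by
  have hF : Primrec fun x : (List Code × ℕ) × (List (ℕ × ℕ) × Ex) => x.1.1 :=
    Primrec.fst.comp Primrec.fst
  have hk : Primrec fun x : (List Code × ℕ) × (List (ℕ × ℕ) × Ex) => x.1.2 :=
    Primrec.snd.comp Primrec.fst
  have hD : Primrec fun x : (List Code × ℕ) × (List (ℕ × ℕ) × Ex) => x.2.1 :=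
    Primrec.fst.comp Primrec.snd
  have he : Primrec fun x : (List Code × ℕ) × (List (ℕ × ℕ) × Ex) => x.2.2 :=
    Primrec.snd.comp Primrec.snd
  have h1 : PrimrecPred fun x : (List Code × ℕ) × (List (ℕ × ℕ) × Ex) => okE x.2.2 := by
    unfold okE
    refine pAll he ?_
    refine pImp (pEq (Primrec.fst.comp Primrec.snd) (Primrec.const 0)) ?_
    exact (pLt (Primrec.list_length.comp (Primrec.snd.comp Primrec.snd))
      (Primrec.const 2)).of_eq fun x => by omega
  have h2 : PrimrecPred fun x : (List Code × ℕ) × (List (ℕ × ℕ) × Ex) =>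
      ∀ f ∈ x.1.1, ¬ inCC x.1.2 x.2.1 x.2.2 f := by
    refine pAll hF ?_
    exact (inCC_primrec (hk.comp Primrec.fst) (hD.comp Primrec.fst) (he.comp Primrec.fst)
      Primrec.snd).not
  have h3 : PrimrecPred fun x : (List Code × ℕ) × (List (ℕ × ℕ) × Ex) =>
      ∀ n < Nb x.1.2 x.1.2 x.2.2.length, ∀ D' ∈ rels x.1.2,
        ∀ w ∈ tuples (List.range x.1.2) n, freeC x.1.1 (wcode D' w) →
          inCC x.1.2 x.2.1 x.2.2 (wcode D' w) := by
    refine pAllLt (nb_primrec hk hk (Primrec.list_length.comp he)) ?_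
    refine pAll (rels_primrec (hk.comp Primrec.fst)) ?_
    refine pAll (tuples_primrec (Primrec.list_range.comp
      (hk.comp (Primrec.fst.comp Primrec.fst))) (Primrec.snd.comp Primrec.fst)) ?_
    have hw : Primrec fun x : ((((List Code × ℕ) × (List (ℕ × ℕ) × Ex)) × ℕ) ×
        List (ℕ × ℕ)) × List ℕ => wcode x.1.2 x.2 :=
      wcode_primrec (Primrec.snd.comp Primrec.fst) Primrec.snd
    have h0 : Primrec fun x : ((((List Code × ℕ) × (List (ℕ × ℕ) × Ex)) × ℕ) ×
        List (ℕ × ℕ)) × List ℕ => x.1.1.1 :=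
      Primrec.fst.comp (Primrec.fst.comp Primrec.fst)
    exact pImp (freeC_primrec (hF.comp h0) hw) (inCC_primrec (hk.comp h0) (hD.comp h0)
      (he.comp h0) hw)
  refine (h1.and (h2.and h3)).of_eq fun x => ?_
  unfold CertA
  simp only [inCC_wcode]
  simp only [freeC_iff, inCC_iff, decode_wcode]

theorem certN_primrec : PrimrecPred fun x : (List Code × ℕ) × (Code × Code) =>
    CertN x.1.1 x.1.2 x.2.1 x.2.2 := by
  have hF : Primrec fun x : (List Code × ℕ) × (Code × Code) => x.1.1 :=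
    Primrec.fst.comp Primrec.fst
  have hk : Primrec fun x : (List Code × ℕ) × (Code × Code) => x.1.2 :=
    Primrec.snd.comp Primrec.fst
  have hg1 : Primrec fun x : (List Code × ℕ) × (Code × Code) => x.2.1 :=
    Primrec.fst.comp Primrec.snd
  have hg2 : Primrec fun x : (List Code × ℕ) × (Code × Code) => x.2.2 :=
    Primrec.snd.comp Primrec.snd
  have h3 : PrimrecPred fun x : (List Code × ℕ) × (Code × Code) =>
      ∀ n < x.2.1.1 + x.2.2.1 + 1, ∀ D ∈ rels x.1.2, ∀ w ∈ tuples (List.range x.1.2) n,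
        ¬ (freeC x.1.1 (wcode D w) ∧ embC x.2.1 (wcode D w) ∧ embC x.2.2 (wcode D w)) := by
    refine pAllLt (Primrec.succ.comp (Primrec.nat_add.comp (Primrec.fst.comp hg1)
      (Primrec.fst.comp hg2))) ?_
    refine pAll (rels_primrec (hk.comp Primrec.fst)) ?_
    refine pAll (tuples_primrec (Primrec.list_range.comp
      (hk.comp (Primrec.fst.comp Primrec.fst))) (Primrec.snd.comp Primrec.fst)) ?_
    have hw : Primrec fun x : ((((List Code × ℕ) × (Code × Code)) × ℕ) ×
        List (ℕ × ℕ)) × List ℕ => wcode x.1.2 x.2 :=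
      wcode_primrec (Primrec.snd.comp Primrec.fst) Primrec.snd
    have h0 : Primrec fun x : ((((List Code × ℕ) × (Code × Code)) × ℕ) ×
        List (ℕ × ℕ)) × List ℕ => x.1.1.1 :=
      Primrec.fst.comp (Primrec.fst.comp Primrec.fst)
    exact ((freeC_primrec (hF.comp h0) hw).and ((embC_primrec (hg1.comp h0) hw).and
      (embC_primrec (hg2.comp h0) hw))).not
  refine ((freeC_primrec hF hg1).and ((freeC_primrec hF hg2).and h3)).of_eq fun x => ?_
  unfold CertN
  simp only [freeC_iff, embC_iff, decode_wcode]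

end Checks

end Pool.Agent.H12Letter
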