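import Pool.Agent.H12Letter.Class

/-!
# Words, graphs of words, the pumping lemma for classes
-/

namespace Pool.Agent.H12Letter

open Finset

/-- the letter graph of the word `w` with decoder `D` -/
def LW (D : List (ℕ × ℕ)) (w : List ℕ) : SimpleGraph (Fin w.length) :=
  LG D (fun i => w[i]) (fun i => (i : ℕ))

/-- the same as a member of `FG` -/
def WG (D : List (ℕ × ℕ)) (w : List ℕ) : FG := ⟨w.length, LW D w⟩

theorem rep_LW {k : ℕ} (D : List (ℕ × ℕ)) {w : List ℕ} (hw : ∀ x ∈ w, x < k) :
    Rep k D (LW D w) (fun i => w[i]) (fun i => (i : ℕ)) :=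
  rep_LG Fin.val_injective fun _ => hw _ (List.getElem_mem _)

theorem exists_bound (w : List ℕ) : ∃ k, ∀ x ∈ w, x < k := by
  refine ⟨w.sum + 1, fun x hx => ?_⟩
  have := List.single_le_sum (fun _ _ => Nat.zero_le _) x hx
  omega

theorem emb_sublist (D : List (ℕ × ℕ)) {u w : List ℕ} (h : u.Sublist w) :
    Emb (WG D u) (WG D w) := by
  obtain ⟨k, hk⟩ := exists_bound w
  obtain ⟨f, hf⟩ := List.sublist_iff_exists_fin_orderEmbedding_get_eq.1 h
  exact emb_of_mono (rep_LW D fun x hx => hk x (h.subset hx)) (rep_LW D hk) f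
    (fun v => (hf v).symm) (fun u v huv => f.strictMono huv)

theorem exists_enum {V : Type} [Fintype V] (σ : V → ℕ) (h : Function.Injective σ) :
    ∃ en : Fin (Fintype.card V) ≃ V, ∀ i j, i < j → σ (en i) < σ (en j) := by
  let _ : LinearOrder V := LinearOrder.lift' σ h
  let o := Fintype.orderIsoFinOfCardEq V rfl
  refine ⟨o.toEquiv, fun i j hij => ?_⟩
  have : o i < o j := o.strictMono hij
  exact this

/-- a graph with a letter representation is a letter graph of a word -/
theorem exists_word {V : Type} [Fintype V] {k : ℕ} {D : List (ℕ × ℕ)} {G : SimpleGraph V}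
    {c σ : V → ℕ} (h : Rep k D G c σ) : ∃ en : Fin (Fintype.card V) ≃ V,
      (∀ i j, i < j → σ (en i) < σ (en j)) ∧ (∀ x ∈ List.ofFn (fun i => c (en i)), x < k) ∧
      Nonempty (G ↪g LW D (List.ofFn fun i => c (en i))) ∧
      Nonempty (LW D (List.ofFn fun i => c (en i)) ↪g G) := by
  obtain ⟨en, hen⟩ := exists_enum σ h.inj
  have hw : ∀ x ∈ List.ofFn (fun i => c (en i)), x < k := by
    intro x hx
    obtain ⟨i, rfl⟩ := (List.mem_ofFn' _ _).1 hx
    exact h.lt _
  have hlen : (List.ofFn (fun i => c (en i))).length = Fintype.card V := List.length_ofFn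
  refine ⟨en, hen, hw, ?_, ?_⟩
  · refine emb_of_mono h (rep_LW D hw) (fun v => Fin.cast hlen.symm (en.symm v)) ?_ ?_
    · intro v
      simp
    · intro u v huv
      change (en.symm u : ℕ) < (en.symm v : ℕ)
      by_contra hno
      rcases lt_or_eq_of_le (not_lt.1 hno) with h1 | h1
      · have := hen _ _ h1
        rw [Equiv.apply_symm_apply, Equiv.apply_symm_apply] at this
        omega
      · have h2 := en.symm.injective (Fin.ext h1)
        subst h2
        exact lt_irrefl _ huv
  · refine emb_of_mono (rep_LW D hw) h (fun i => en (Fin.cast hlen i)) ?_ ?_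
    · intro v
      simp
      rfl
    · intro u v huv
      exact hen _ _ huv

theorem exists_typed {V : Type} [Fintype V] {k : ℕ} {D : List (ℕ × ℕ)}
    {e : List (ℕ × List ℕ)} {G : SimpleGraph V} (h : InC k D e G) :
    ∃ w : List ℕ, (∀ x ∈ w, x < k) ∧ Mat e w ∧ Nonempty (G ↪g LW D w) ∧
      Nonempty (LW D w ↪g G) := by
  obtain ⟨c, β, σ, h⟩ := h
  obtain ⟨en, hen⟩ := exists_enum σ h.inj
  have hty : Typed e (List.ofFn fun i => (c (en i), β (en i))) := by
    constructor
    · intro p hp
      obtain ⟨i, rfl⟩ := (List.mem_ofFn' _ _).1 hp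
      exact h.hal _
    · rw [List.pairwise_ofFn]
      intro i j hij
      refine ⟨?_, fun hβ => h.hst _ _ (fun he => ?_) hβ⟩
      · by_contra hlt
        have h1 := h.mono _ _ (not_le.1 hlt)
        have h2 := hen i j hij
        omega
      · have := en.injective he
        subst this
        exact lt_irrefl _ hij
  have hmat := hty.mat
  have hmap : (List.ofFn fun i => (c (en i), β (en i))).map Prod.fst =
      List.ofFn fun i => c (en i) := by
    rw [List.map_ofFn]
    rfl
  rw [hmap] at hmat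
  have hw : ∀ x ∈ List.ofFn (fun i => c (en i)), x < k := by
    intro x hx
    obtain ⟨i, rfl⟩ := (List.mem_ofFn' _ _).1 hx
    exact h.lt _
  have hlen : (List.ofFn (fun i => c (en i))).length = Fintype.card V := List.length_ofFn
  refine ⟨List.ofFn fun i => c (en i), hw, hmat, ?_, ?_⟩
  · refine emb_of_mono h.toRep (rep_LW D hw) (fun v => Fin.cast hlen.symm (en.symm v)) ?_ ?_
    · intro v
      simp
    · intro u v huv
      change (en.symm u : ℕ) < (en.symm v : ℕ)
      by_contra hno
      rcases lt_or_eq_of_le (not_lt.1 hno) with h1 | h1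
      · have := hen _ _ h1
        rw [Equiv.apply_symm_apply, Equiv.apply_symm_apply] at this
        omega
      · have h2 := en.symm.injective (Fin.ext h1)
        subst h2
        exact lt_irrefl _ huv
  · refine emb_of_mono (rep_LW D hw) h.toRep (fun i => en (Fin.cast hlen i)) ?_ ?_
    · intro v
      simp
      rfl
    · intro u v huv
      exact hen _ _ huv

/-- the graph of a matching word lies in the class -/
theorem inC_of_mat {k : ℕ} {D : List (ℕ × ℕ)} {e : List (ℕ × List ℕ)} {w : List ℕ}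
    (hw : ∀ x ∈ w, x < k) (h : Mat e w) : InC k D e (LW D w) := by
  obtain ⟨t, rfl, hal, hp⟩ := h.typed
  rw [List.pairwise_iff_getElem] at hp
  have hlen : (t.map Prod.fst).length = t.length := List.length_map ..
  have hlt : ∀ i : Fin (t.map Prod.fst).length, (i : ℕ) < t.length := fun i => hlen ▸ i.2
  refine ⟨fun i => (t.map Prod.fst)[i], fun i => (t[(i : ℕ)]'(hlt i)).2, fun i => (i : ℕ),
    rep_LW D hw, ?_, ?_, ?_⟩
  · intro i
    have := hal (t[(i : ℕ)]'(hlt i)) (List.getElem_mem _)
    simpa using this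
  · intro i j hij hβ
    rcases lt_or_gt_of_ne (fun h => hij (Fin.ext h) : (i : ℕ) ≠ j) with h1 | h1
    · exact (hp i j (hlt i) (hlt j) h1).2 hβ
    · have := (hp j i (hlt j) (hlt i) h1).2 hβ.symm
      rw [hβ]
      exact this
  · intro i j hβ
    by_contra hno
    rcases lt_or_eq_of_le (not_lt.1 hno) with h1 | h1
    · have := (hp j i (hlt j) (hlt i) h1).1
      omega
    · have h2 : i = j := Fin.ext h1.symm
      subst h2
      exact lt_irrefl _ hβ

section Pump

variable (K k b : ℕ)

/-- types: old letter, new letter, block -/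
abbrev Ty : Type := Fin K × Fin k × Fin b

theorem card_ty : Fintype.card (Ty K k b) = K * (k * b) := by
  simp [Ty, Fintype.card_prod]

/-- the old letter of a type -/
def old (p : Ty K k b) : ℕ := p.1

variable {K k b}

def tOK (e : List (ℕ × List ℕ)) (p : Ty K k b) : Prop := al e p.2.2 p.2.1

def tSame (D' D : List (ℕ × ℕ)) (e : List (ℕ × List ℕ)) (p q : Ty K k b) : Prop :=
  ((p.2.2 : ℕ) = q.2.2 → st e p.2.2) ∧ ¬ (q.2.2 : ℕ) < p.2.2 ∧
    (((p.1 : ℕ), (q.1 : ℕ)) ∈ D' ↔ ((p.2.1 : ℕ), (q.2.1 : ℕ)) ∈ D)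

def tRev (D' D : List (ℕ × ℕ)) (e : List (ℕ × List ℕ)) (p q : Ty K k b) : Prop :=
  ((p.2.2 : ℕ) = q.2.2 → st e p.2.2) ∧ ¬ (p.2.2 : ℕ) < q.2.2 ∧
    (((p.1 : ℕ), (q.1 : ℕ)) ∈ D' ↔ ((q.2.1 : ℕ), (p.2.1 : ℕ)) ∈ D)

theorem inC_iff_val {D' D : List (ℕ × ℕ)} {e : List (ℕ × List ℕ)} (hb : e.length = b)
    {w : List ℕ} (hw : ∀ x ∈ w, x < K) :
    InC k D e (LW D' w) ↔ ∃ t : List (Ty K k b), t.map (old K k b) = w ∧
      Val (tOK e) (tSame D' D e) (tRev D' D e) t := by
  have hrep := rep_LW D' hw
  constructor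
  · rintro ⟨c, β, σ, h⟩
    have hβ : ∀ i, β i < b := fun i => hb ▸ (h.hal i).lt
    set T : Fin w.length → Ty K k b := fun i =>
      (⟨w[i], hw _ (List.getElem_mem _)⟩, ⟨c i, h.lt i⟩, ⟨β i, hβ i⟩) with hT
    have hget : ∀ (i : ℕ) (a : Ty K k b), (List.ofFn T)[i]? = some a →
        ∃ hi : i < w.length, a = T ⟨i, hi⟩ := by
      intro i a ha
      obtain ⟨h1, h2⟩ := List.getElem?_eq_some_iff.1 ha
      rw [List.length_ofFn] at h1
      refine ⟨h1, ?_⟩
      rw [← h2, List.getElem_ofFn]
    refine ⟨List.ofFn T, ?_, ?_, fun i => if hi : i < w.length then σ ⟨i, hi⟩ else 0, ?_⟩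
    · rw [List.map_ofFn]
      have : (old K k b ∘ T) = fun i => w[i] := rfl
      rw [this]
      exact List.ofFn_getElem
    · intro a ha
      obtain ⟨i, rfl⟩ := (List.mem_ofFn' _ _).1 ha
      exact h.hal i
    · intro i j a a' hij hi hj
      obtain ⟨hi', rfl⟩ := hget i a hi
      obtain ⟨hj', rfl⟩ := hget j a' hj
      simp only [hi', hj', dif_pos]
      have hne : (⟨i, hi'⟩ : Fin w.length) ≠ ⟨j, hj'⟩ := by
        intro h
        have := Fin.mk.inj_iff.1 h
        omega
      have hadj : (LW D' w).Adj ⟨i, hi'⟩ ⟨j, hj'⟩ ↔ (w[i], w[j]) ∈ D' :=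
        hrep.adj _ _ hij
      rcases lt_trichotomy (σ ⟨i, hi'⟩) (σ ⟨j, hj'⟩) with h1 | h1 | h1
      · left
        refine ⟨h1, fun h2 => h.hst _ _ hne h2, fun h2 => ?_, ?_⟩
        · have := h.mono _ _ h2
          omega
        · exact hadj.symm.trans (h.adj _ _ h1)
      · exact absurd (h.inj h1) hne
      · right
        refine ⟨h1, fun h2 => h.hst _ _ hne h2, fun h2 => ?_, ?_⟩
        · have := h.mono _ _ h2
          omega
        · exact hadj.symm.trans (((LW D' w).adj_comm _ _).trans (h.adj _ _ h1))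
  · rintro ⟨t, rfl, hOK, σ, hσ⟩
    have hlt : ∀ i : Fin (t.map (old K k b)).length, (i : ℕ) < t.length := by
      intro i
      exact lt_of_lt_of_eq i.2 (List.length_map ..)
    have hget : ∀ i : Fin (t.map (old K k b)).length,
        t[(i : ℕ)]? = some (t[(i : ℕ)]'(hlt i)) := fun i => List.getElem?_eq_getElem _
    have hold : ∀ i : Fin (t.map (old K k b)).length,
        (t.map (old K k b))[i] = ((t[(i : ℕ)]'(hlt i)).1 : ℕ) := by
      intro i
      simp [old]
    have hpair : ∀ i j : Fin (t.map (old K k b)).length, (i : ℕ) < j →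
        (σ i < σ j ∧ tSame D' D e (t[(i : ℕ)]'(hlt i)) (t[(j : ℕ)]'(hlt j))) ∨
        (σ j < σ i ∧ tRev D' D e (t[(i : ℕ)]'(hlt i)) (t[(j : ℕ)]'(hlt j))) :=
      fun i j hij => hσ i j _ _ hij (hget i) (hget j)
    refine ⟨fun i => (t[(i : ℕ)]'(hlt i)).2.1, fun i => (t[(i : ℕ)]'(hlt i)).2.2,
      fun i => σ i, ⟨?_, fun i => Fin.is_lt _, ?_⟩, ?_, ?_, ?_⟩
    · intro i j hij
      by_contra hne
      rcases lt_or_gt_of_ne (fun h => hne (Fin.ext h) : (i : ℕ) ≠ j) with h1 | h1
      · rcases hpair i j h1 with h2 | h2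
        · exact absurd hij (by simp only; omega)
        · exact absurd hij (by simp only; omega)
      · rcases hpair j i h1 with h2 | h2
        · exact absurd hij (by simp only; omega)
        · exact absurd hij (by simp only; omega)
    · intro i j hij
      rcases lt_trichotomy (i : ℕ) j with h1 | h1 | h1
      · rcases hpair i j h1 with h2 | h2
        · rw [hrep.adj i j h1, hold, hold]
          exact h2.2.2.2
        · omega
      · rw [h1] at hij
        omega
      · rcases hpair j i h1 with h2 | h2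
        · omega
        · rw [SimpleGraph.adj_comm, hrep.adj j i h1, hold, hold]
          exact h2.2.2.2
    · intro i
      exact hOK _ (List.getElem_mem _)
    · intro i j hij hβ
      rcases lt_or_gt_of_ne (fun h => hij (Fin.ext h) : (i : ℕ) ≠ j) with h1 | h1
      · rcases hpair i j h1 with h2 | h2
        · exact h2.2.1 hβ
        · exact h2.2.1 hβ
      · rcases hpair j i h1 with h2 | h2
        · rw [hβ]
          exact h2.2.1 hβ.symm
        · rw [hβ]
          exact h2.2.1 hβ.symm
    · intro i j hβ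
      rcases lt_trichotomy (i : ℕ) j with h1 | h1 | h1
      · rcases hpair i j h1 with h2 | h2
        · exact h2.1
        · exact absurd hβ h2.2.2.1
      · have h2 : i = j := Fin.ext h1
        subst h2
        exact absurd hβ (lt_irrefl _)
      · rcases hpair j i h1 with h2 | h2
        · exact absurd hβ h2.2.2.1
        · exact h2.1

/-- the bound -/
def Nb (K k b : ℕ) : ℕ := 2 ^ 2 ^ (K * (k * b) + 1) ^ (2 * (K * (k * b)))

/-- Every word has a subword of bounded length which is at least as bad for all `D'`, `D`, `e` -/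
theorem exists_pump (K k b : ℕ) (w : List ℕ) (hw : ∀ x ∈ w, x < K) :
    ∃ w' : List ℕ, w'.Sublist w ∧ w'.length < Nb K k b ∧
      ∀ (D' D : List (ℕ × ℕ)) (e : List (ℕ × List ℕ)), e.length = b →
        InC k D e (LW D' w') → InC k D e (LW D' w) := by
  obtain ⟨w', h1, h2, h3⟩ := exists_short (α := Ty K k b)
    (2 * Fintype.card (Ty K k b)) (old K k b) w
  refine ⟨w', h1, by rw [card_ty] at h2; exact h2, fun D' D e hb h => ?_⟩
  rw [inC_iff_val hb hw]
  rw [inC_iff_val hb fun x hx => hw x (h1.subset hx)] at h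
  exact exists_val_iff le_rfl h3 _ _ _ h

end Pump

end Pool.Agent.H12Letter
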